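import Mathlib
import Pool.Agent.W545.CS.Len
set_option autoImplicit false
open Set Filter Topology MeasureTheory Metric
open scoped ENNReal Manifold ContDiff

/-! Flat coordinates at a regular point of a function of two variables. -/

namespace Pool.Agent.W45.CS
open Pool.Agent.W545.Man Pool.Agent.W545.CS

/-- the point with coordinates `a`, `b` -/
noncomputable def pt (p : ℝ × ℝ) : EE 1 := WithLp.toLp 2 ![p.1, p.2]

@[simp] theorem pt_zero (p : ℝ × ℝ) : pt p 0 = p.1 := rfl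
@[simp] theorem pt_one (p : ℝ × ℝ) : pt p 1 = p.2 := rfl

theorem ext2 {u v : EE 1} (h0 : u 0 = v 0) (h1 : u 1 = v 1) : u = v := by
  ext i; fin_cases i
  · exact h0
  · exact h1

theorem pt_cont : Continuous pt := by
  unfold pt
  apply (PiLp.continuous_toLp 2 _).comp
  apply continuous_pi
  intro i
  fin_cases i
  · exact continuous_fst
  · exact continuous_snd

theorem pt_mp : MeasurePreserving pt (volume : Measure (ℝ × ℝ)) (volume : Measure (EE 1)) := by
  have h1 := (volume_preserving_finTwoArrow ℝ).symm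
  have h2 := PiLp.volume_preserving_toLp (Fin 2)
  exact h2.comp h1

theorem pt_emb : MeasurableEmbedding pt := by
  apply Topology.IsClosedEmbedding.measurableEmbedding
  have hc := pt_cont
  refine Topology.IsClosedEmbedding.of_continuous_injective_isClosedMap hc ?_ ?_
  · intro p q h
    have h0 := congrArg (fun u : EE 1 => u 0) h
    have h1 := congrArg (fun u : EE 1 => u 1) h
    exact Prod.ext h0 h1
  · intro s hs
    have : pt '' s = (fun u : EE 1 => ((u 0, u 1) : ℝ × ℝ)) ⁻¹' s := by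
      ext u
      constructor
      · rintro ⟨p, hp, rfl⟩
        exact hp
      · intro hu
        exact ⟨(u 0, u 1), hu, ext2 rfl rfl⟩
    rw [this]
    exact hs.preimage (by fun_prop)

theorem ev_val : (ev 0) 0 = 1 ∧ (ev 0) 1 = 0 ∧ (ev 1) 0 = 0 ∧ (ev 1) 1 = 1 := by
  simp [ev]

theorem det_ee (A : EE 1 →L[ℝ] EE 1) :
    A.det = (A (ev 0)) 0 * (A (ev 1)) 1 - (A (ev 1)) 0 * (A (ev 0)) 1 := by
  unfold ContinuousLinearMap.det
  rw [← LinearMap.det_toMatrix (EuclideanSpace.basisFun (Fin (1 + 1)) ℝ).toBasis]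
  rw [det2]
  simp [LinearMap.toMatrix_apply]

/-- the Jacobian determinant of the pair of covectors `L`, `l` -/
noncomputable def jd (L l : EE 1 →L[ℝ] ℝ) : ℝ := L (ev 0) * l (ev 1) - L (ev 1) * l (ev 0)

theorem jd_mul (L l : EE 1 →L[ℝ] ℝ) (a b : EE 1) :
    jd L l * (a 0 * b 1 - b 0 * a 1) = L a * l b - L b * l a := by
  rw [lin2 L a, lin2 L b, lin2 l a, lin2 l b]
  unfold jd
  ring

/-- the map with components `f` and `l` -/
noncomputable def Psi (f : EE 1 → ℝ) (l : EE 1 →L[ℝ] ℝ) (y : EE 1) : EE 1 := pt (f y, l y)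

/-- its derivative -/
noncomputable def DPsi (L l : EE 1 →L[ℝ] ℝ) : EE 1 →L[ℝ] EE 1 :=
  L.smulRight (ev 0) + l.smulRight (ev 1)

theorem pt_eq (p : ℝ × ℝ) : pt p = p.1 • ev 0 + p.2 • ev 1 := by
  apply ext2
  · simp [ev]
  · simp [ev]

theorem DPsi_det (L l : EE 1 →L[ℝ] ℝ) : (DPsi L l).det = jd L l := by
  rw [det_ee]
  unfold DPsi jd
  simp [ev]

theorem Psi_eq (f : EE 1 → ℝ) (l : EE 1 →L[ℝ] ℝ) :
    Psi f l = fun y => f y • ev 0 + l y • ev 1 := by
  funext y
  exact pt_eq _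

theorem Psi_has {f : EE 1 → ℝ} (l : EE 1 →L[ℝ] ℝ) {y : EE 1} {L : EE 1 →L[ℝ] ℝ}
    (h : HasFDerivAt f L y) : HasFDerivAt (Psi f l) (DPsi L l) y := by
  rw [Psi_eq]
  exact (h.smul_const (ev 0)).add (l.hasFDerivAt.smul_const (ev 1))

/-- flat coordinates -/
theorem flat {T : Set (EE 1)} (hT : IsOpen T) {f : EE 1 → ℝ} (hf : ContDiffOn ℝ ∞ f T)
    {p : EE 1} (hp : p ∈ T) (hd : fderiv ℝ f p ≠ 0) :
    ∃ (G : EE 1 → EE 1) (l : EE 1 →L[ℝ] ℝ) (O : Set (EE 1)), IsOpen O ∧ pt (f p, l p) ∈ O ∧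
      G (pt (f p, l p)) = p ∧
      ContDiffOn ℝ ∞ G O ∧ (∀ u ∈ O, G u ∈ T ∧ f (G u) = u 0 ∧ l (G u) = u 1) ∧
      ∀ B ⊆ O, IsOpen B → IsOpen (G '' B) := by
  -- choice of the second coordinate
  obtain ⟨l, hl⟩ : ∃ l : EE 1 →L[ℝ] ℝ, jd (fderiv ℝ f p) l ≠ 0 := by
    by_cases h0 : fderiv ℝ f p (ev 0) = 0
    · have h1 : fderiv ℝ f p (ev 1) ≠ 0 := by
        intro h1
        apply hd
        ext v
        rw [lin2, h0, h1]
        simp
      refine ⟨EuclideanSpace.proj (𝕜 := ℝ) (0 : Fin (1 + 1)), ?_⟩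
      unfold jd
      simp [ev, h0, h1]
    · refine ⟨EuclideanSpace.proj (𝕜 := ℝ) (1 : Fin (1 + 1)), ?_⟩
      unfold jd
      simp [ev, h0]
  set J : EE 1 → ℝ := fun y => jd (fderiv ℝ f y) l with hJ
  have hJc : ContinuousOn J T := by
    have h1 : ContinuousOn (fderiv ℝ f) T := hf.continuousOn_fderiv_of_isOpen hT (by simp)
    rw [hJ]
    unfold jd
    exact ((h1.clm_apply continuousOn_const).mul continuousOn_const).sub
      ((h1.clm_apply continuousOn_const).mul continuousOn_const)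
  have hhas : ∀ y ∈ T, HasFDerivAt (Psi f l) (DPsi (fderiv ℝ f y) l) y := fun y hy =>
    Psi_has l ((hf.differentiableOn (by simp)).differentiableAt (hT.mem_nhds hy)).hasFDerivAt
  have hPs : ContDiffOn ℝ ∞ (Psi f l) T := by
    rw [Psi_eq]
    exact (hf.smul contDiffOn_const).add (l.contDiff.contDiffOn.smul contDiffOn_const)
  have hdet : ∀ y, (DPsi (fderiv ℝ f y) l).det = J y := fun y => DPsi_det _ _
  have hp' : (DPsi (fderiv ℝ f p) l).det ≠ 0 := by rw [hdet]; exact hl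
  have hpc : ContDiffAt ℝ ∞ (Psi f l) p := hPs.contDiffAt (hT.mem_nhds hp)
  have hpe : HasFDerivAt (Psi f l)
      (((DPsi (fderiv ℝ f p) l).toContinuousLinearEquivOfDetNeZero hp' : EE 1 ≃L[ℝ] EE 1) :
        EE 1 →L[ℝ] EE 1) p := by
    rw [ContinuousLinearMap.coe_toContinuousLinearEquivOfDetNeZero]
    exact hhas p hp
  set e := hpc.toOpenPartialHomeomorph (Psi f l) hpe (by simp) with he
  have hecoe : (e : EE 1 → EE 1) = Psi f l := hpc.toOpenPartialHomeomorph_coe hpe (by simp)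
  have hpes : p ∈ e.source := hpc.mem_toOpenPartialHomeomorph_source hpe (by simp)
  -- the good part of the source
  have hTJ : IsOpen (T ∩ J ⁻¹' {0}ᶜ) := hJc.isOpen_inter_preimage hT isOpen_compl_singleton
  set e' := e.restrOpen (T ∩ J ⁻¹' {0}ᶜ) hTJ with he'
  have he's : e'.source = e.source ∩ (T ∩ J ⁻¹' {0}ᶜ) := by
    rw [he', OpenPartialHomeomorph.restrOpen_source]
  have hps : p ∈ e'.source := by
    rw [he's]
    exact ⟨hpes, hp, hl⟩
  have he'coe : (e' : EE 1 → EE 1) = Psi f l := hecoe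
  have hval : ∀ u ∈ e'.target, e'.symm u ∈ T ∧ J (e'.symm u) ≠ 0 ∧
      Psi f l (e'.symm u) = u := by
    intro u hu
    have h1 : e'.symm u ∈ e'.source := e'.map_target hu
    have h1' := h1
    rw [he's] at h1
    refine ⟨h1.2.1, h1.2.2, ?_⟩
    have := e'.right_inv hu
    rwa [he'coe] at this
  refine ⟨e'.symm, l, e'.target, e'.open_target, ?_, ?_, ?_, ?_, ?_⟩
  · have := e'.map_source hps
    rwa [he'coe] at this
  · have := e'.left_inv hps
    rwa [he'coe] at this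
  · intro u hu
    obtain ⟨h1, h2, h3⟩ := hval u hu
    have hd' : (DPsi (fderiv ℝ f (e'.symm u)) l).det ≠ 0 := by rw [hdet]; exact h2
    apply ContDiffAt.contDiffWithinAt
    apply e'.contDiffAt_symm
      (f₀' := (DPsi (fderiv ℝ f (e'.symm u)) l).toContinuousLinearEquivOfDetNeZero hd') hu
    · rw [ContinuousLinearMap.coe_toContinuousLinearEquivOfDetNeZero, he'coe]
      exact hhas _ h1
    · rw [he'coe]
      exact hPs.contDiffAt (hT.mem_nhds h1)
  · intro u hu
    obtain ⟨h1, h2, h3⟩ := hval u hu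
    refine ⟨h1, ?_, ?_⟩
    · conv_rhs => rw [← h3]
      rfl
    · conv_rhs => rw [← h3]
      rfl
  · intro B hB hBo
    exact e'.symm.isOpen_image_of_subset_source hBo hB

end Pool.Agent.W45.CS
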