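import Mathlib
import Pool.Agent.W545.CS.Len
set_option autoImplicit false
open Set Filter Topology MeasureTheory Metric
open scoped ENNReal Manifold ContDiff

/-! Green's identity on a closed surface. -/

namespace Pool.Agent.W45.CS
open Pool.Agent.W545.Man Pool.Agent.W545.CS

section plane

variable {T K : Set (EE 1)}

theorem ind_smooth (hT : IsOpen T) (hK : IsCompact K) (hKT : K ⊆ T) {P : EE 1 → ℝ}
    (hP : ContDiffOn ℝ ∞ P T) (h0 : ∀ y ∈ T, y ∉ K → P y = 0) :
    ContDiff ℝ ∞ (T.indicator P) := by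
  rw [contDiff_iff_contDiffAt]
  intro y
  by_cases hy : y ∈ T
  · have h1 := hP.contDiffAt (hT.mem_nhds hy)
    apply h1.congr_of_eventuallyEq
    filter_upwards [hT.mem_nhds hy] with z hz
    exact indicator_of_mem hz _
  · have hyK : y ∉ K := fun h => hy (hKT h)
    have : T.indicator P =ᶠ[𝓝 y] fun _ => 0 := by
      filter_upwards [hK.isClosed.isOpen_compl.mem_nhds hyK] with z hz
      by_cases hzT : z ∈ T
      · rw [indicator_of_mem hzT]; exact h0 z hzT hz
      · exact indicator_of_notMem hzT _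
    exact contDiffAt_const.congr_of_eventuallyEq this

theorem ind_tsupport (hK : IsCompact K) {P : EE 1 → ℝ}
    (h0 : ∀ y ∈ T, y ∉ K → P y = 0) : tsupport (T.indicator P) ⊆ K := by
  apply closure_minimal _ hK.isClosed
  intro y hy
  by_contra hyK
  apply hy
  by_cases hyT : y ∈ T
  · rw [indicator_of_mem hyT]; exact h0 y hyT hyK
  · exact indicator_of_notMem hyT _

theorem integ (hT : IsOpen T) {P Q : EE 1 → ℝ} (hP : ContinuousOn P T) (hQ : Continuous Q)
    (hc : HasCompactSupport Q) (hs : tsupport Q ⊆ T) :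
    Integrable (fun y => P y * Q y) (volume : Measure (EE 1)) := by
  refine Continuous.integrable_of_hasCompactSupport ?_ (hc.mul_left (f := P))
  apply continuous_of_tsupport
  intro y hy
  have hy' : y ∈ tsupport Q := closure_mono (Function.support_mul_subset_right P Q) hy
  exact (hP.continuousAt (hT.mem_nhds (hs hy'))).mul hQ.continuousAt

/-- integration by parts -/
theorem parts (hT : IsOpen T) {W X : EE 1 → ℝ} (hW : ContDiffOn ℝ ∞ W T)
    (hX : ContDiff ℝ ∞ X) (hc : HasCompactSupport X) (hs : tsupport X ⊆ T) (v : EE 1) :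
    ∫ y, fderiv ℝ W y v * X y = - ∫ y, W y * fderiv ℝ X y v := by
  have hW' : ContinuousOn (fun y => fderiv ℝ W y v) T :=
    (hW.continuousOn_fderiv_of_isOpen hT (by simp)).clm_apply continuousOn_const
  have hX' : Continuous (fun y => fderiv ℝ X y v) :=
    (hX.continuous_fderiv (by simp)).clm_apply continuous_const
  have h := integral_mul_fderiv_eq_neg_fderiv_mul_of_integrable (μ := (volume : Measure (EE 1)))
    (f := W) (g := X) (v := v) (integ hT hW' hX.continuous hc hs)
    (integ hT hW.continuousOn hX' (hc.fderiv_apply (𝕜 := ℝ) v)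
      ((tsupport_fderiv_apply_subset ℝ v).trans hs))
    (integ hT hW.continuousOn hX.continuous hc hs)
    (fun x hx => (hW.differentiableOn (by simp)).differentiableAt (hT.mem_nhds (hs hx)))
    (fun x _ => (hX.differentiable (by simp)) x)
  rw [h, neg_neg]

end plane

variable {M : Type*} [TopologicalSpace M] [ChartedSpace (EuclideanHalfSpace (1 + 1)) M]
  [IsManifold (𝓡∂ (1 + 1)) ∞ M]

theorem back_smooth [T2Space M] {c : M} {K : Set (EE 1)} (hK : IsCompact K)
    (hKT : K ⊆ (ph 1 c).target) {Q : EE 1 → ℝ} (hQ : ContDiffOn ℝ ∞ Q (ph 1 c).target)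
    (h0 : ∀ y ∈ (ph 1 c).target, y ∉ K → Q y = 0) :
    Sm ((ph 1 c).source.indicator (fun x => Q (ph 1 c x))) := by
  intro x
  by_cases hx : x ∈ (ph 1 c).source
  · have hsrc : (ph 1 c).source ∈ 𝓝 x := (isOpen_extChartAt_source c).mem_nhds hx
    have h3 : ContMDiffOn 𝓘(ℝ, EE 1) 𝓘(ℝ, ℝ) ∞ Q (ph 1 c).target := hQ.contMDiffOn
    have h4 : ContMDiffOn (𝓡∂ (1 + 1)) 𝓘(ℝ, EE 1) ∞ (ph 1 c) (ph 1 c).source := by
      have := contMDiffOn_extChartAt (I := 𝓡∂ (1 + 1)) (x := c) (n := ∞)
      rwa [← extChartAt_source (𝓡∂ (1 + 1))] at this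
    have h2 : ContMDiffOn (𝓡∂ (1 + 1)) 𝓘(ℝ, ℝ) ∞ (fun x => Q (ph 1 c x)) (ph 1 c).source :=
      h3.comp h4 fun x hx => (ph 1 c).map_source hx
    apply (h2.contMDiffAt hsrc).congr_of_eventuallyEq
    filter_upwards [hsrc] with z hz
    exact indicator_of_mem hz _
  · have hcl : IsClosed (UK 1 c K) := (UK_compact hKT hK).isClosed
    have hxK : x ∉ UK 1 c K := fun h => hx h.1
    have : (ph 1 c).source.indicator (fun x => Q (ph 1 c x)) =ᶠ[𝓝 x] fun _ => (0 : ℝ) := by
      filter_upwards [hcl.isOpen_compl.mem_nhds hxK] with z hz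
      by_cases hzS : z ∈ (ph 1 c).source
      · rw [indicator_of_mem hzS]
        exact h0 _ ((ph 1 c).map_source hzS) fun hk => hz ⟨hzS, hk⟩
      · exact indicator_of_notMem hzS _
    exact contMDiffAt_const.congr_of_eventuallyEq this

/-- density of the volume in the chart -/
noncomputable def sd (g : RMetric 1 M) (c : M) (y : EE 1) : ℝ :=
  √(gram g c ((ph 1 c).symm y)).det

theorem gram_smooth (g : RMetric 1 M) (c : M) (i j : Fin (1 + 1)) :
    ContDiffOn ℝ ∞ (fun y => gram g c ((ph 1 c).symm y) i j) (ph 1 c).target :=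
  g.smooth c _ _

theorem sd_pos (g : RMetric 1 M) {c : M} {y : EE 1} (hy : y ∈ (ph 1 c).target) :
    0 < sd g c y :=
  Real.sqrt_pos.2 (gram_posDef g ((ph 1 c).map_target hy)).det_pos

theorem sd_smooth (g : RMetric 1 M) (c : M) : ContDiffOn ℝ ∞ (sd g c) (ph 1 c).target := by
  have hdet : ContDiffOn ℝ ∞ (fun y => (gram g c ((ph 1 c).symm y)).det) (ph 1 c).target := by
    have : (fun y => (gram g c ((ph 1 c).symm y)).det) = fun y =>
        gram g c ((ph 1 c).symm y) 0 0 * gram g c ((ph 1 c).symm y) 1 1 -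
        gram g c ((ph 1 c).symm y) 0 1 * gram g c ((ph 1 c).symm y) 1 0 := by
      funext y; exact det2 _
    rw [this]
    exact ((gram_smooth g c 0 0).mul (gram_smooth g c 1 1)).sub
      ((gram_smooth g c 0 1).mul (gram_smooth g c 1 0))
  exact hdet.sqrt fun y hy => (gram_posDef g ((ph 1 c).map_target hy)).det_pos.ne'

variable [MeasurableSpace M] [BorelSpace M] [T2Space M]

/-- the volume in the chart -/
theorem map_vol {g : RMetric 1 M} {μ : Measure M} (hμ : IsVolume g μ) (hbd : bd 1 M = ∅) (c : M) :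
    (μ.restrict (ph 1 c).source).map (ph 1 c) =
      ((volume : Measure (EE 1)).restrict (ph 1 c).target).withDensity
        (fun y => ENNReal.ofReal (sd g c y)) := by
  have hTm : MeasurableSet (ph 1 c).target := (tgt_open hbd c).measurableSet
  have hSm : MeasurableSet (ph 1 c).source := (isOpen_extChartAt_source c).measurableSet
  have hφ : AEMeasurable (ph 1 c) (μ.restrict (ph 1 c).source) :=
    (continuousOn_extChartAt c).aemeasurable hSm
  have hd : AEMeasurable (fun y => ENNReal.ofReal (sd g c y))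
      ((volume : Measure (EE 1)).restrict (ph 1 c).target) :=
    ((sd_smooth g c).continuousOn.aemeasurable hTm).ennreal_ofReal
  apply Measure.ext_of_lintegral
  intro f hf
  rw [lintegral_map' hf.aemeasurable hφ,
    lintegral_withDensity_eq_lintegral_mul₀ hd hf.aemeasurable]
  have h := hμ c f hf
  rw [← extChartAt_source (𝓡∂ (1 + 1))] at h
  rw [h]
  apply lintegral_congr
  intro y
  rw [Pi.mul_apply, mul_comm]
  rfl

/-- integrals in the chart -/
theorem int_chart {g : RMetric 1 M} {μ : Measure M} (hμ : IsVolume g μ) (hbd : bd 1 M = ∅)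
    (c : M) {H : EE 1 → ℝ} (hH : ContinuousOn H (ph 1 c).target) :
    ∫ x in (ph 1 c).source, H (ph 1 c x) ∂μ = ∫ y in (ph 1 c).target, sd g c y * H y := by
  have hTm : MeasurableSet (ph 1 c).target := (tgt_open hbd c).measurableSet
  have hSm : MeasurableSet (ph 1 c).source := (isOpen_extChartAt_source c).measurableSet
  have hφ : AEMeasurable (ph 1 c) (μ.restrict (ph 1 c).source) :=
    (continuousOn_extChartAt c).aemeasurable hSm
  have hd : AEMeasurable (fun y => ENNReal.ofReal (sd g c y))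
      ((volume : Measure (EE 1)).restrict (ph 1 c).target) :=
    ((sd_smooth g c).continuousOn.aemeasurable hTm).ennreal_ofReal
  have hHm : AEStronglyMeasurable H ((μ.restrict (ph 1 c).source).map (ph 1 c)) := by
    rw [map_vol hμ hbd]
    exact (hH.aestronglyMeasurable hTm).mono_ac (withDensity_absolutelyContinuous _ _)
  rw [← integral_map hφ hHm, map_vol hμ hbd,
    integral_withDensity_eq_integral_toReal_smul₀ hd (Eventually.of_forall fun y =>
      ENNReal.ofReal_lt_top)]
  apply setIntegral_congr_fun hTm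
  intro y hy
  simp only [smul_eq_mul]
  rw [ENNReal.toReal_ofReal (sd_pos g hy).le]

theorem local_green (g : RMetric 1 M) (hbd : bd 1 M = ∅) {F : M → ℝ} (hF : Sm F) (c : M)
    {ρ : M → ℝ} (hρ : Sm ρ) (hρc : HasCompactSupport ρ) (hs : tsupport ρ ⊆ (ph 1 c).source) :
    ∃ D : M → ℝ, Sm D ∧ ∀ μ : Measure M, IsVolume g μ → ∀ w : M → ℝ, Sm w →
      ∫ x, ρ x * bi g w F x ∂μ = - ∫ x, w x * D x ∂μ := by
  have hT : IsOpen (ph 1 c).target := tgt_open hbd c
  set T := (ph 1 c).target with hTdef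
  set K : Set (EE 1) := ph 1 c '' tsupport ρ with hKdef
  have hK : IsCompact K := hρc.isCompact.image_of_continuousOn
    ((continuousOn_extChartAt c).mono hs)
  have hKT : K ⊆ T := by
    rintro _ ⟨x, hx, rfl⟩
    exact (ph 1 c).map_source (hs hx)
  have hρ0 : ∀ y ∈ T, y ∉ K → loc 1 c ρ y = 0 := by
    intro y hy hyK
    unfold loc
    by_contra hne
    apply hyK
    refine ⟨(ph 1 c).symm y, subset_tsupport _ hne, (ph 1 c).right_inv hy⟩
  set A : EE 1 → Matrix (Fin (1 + 1)) (Fin (1 + 1)) ℝ := fun y => gram g c ((ph 1 c).symm y)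
  set V0 : EE 1 → ℝ := fun y =>
    (A y 1 1 * Dloc 1 c F y (ev 0) - A y 0 1 * Dloc 1 c F y (ev 1)) / sd g c y with hV0
  set V1 : EE 1 → ℝ := fun y =>
    (A y 0 0 * Dloc 1 c F y (ev 1) - A y 0 1 * Dloc 1 c F y (ev 0)) / sd g c y with hV1
  have hDF : ∀ i, ContDiffOn ℝ ∞ (fun y => Dloc 1 c F y (ev i)) T := fun i =>
    (Dloc_smooth hF c).clm_apply contDiffOn_const
  have hV0s : ContDiffOn ℝ ∞ V0 T :=
    (((gram_smooth g c 1 1).mul (hDF 0)).sub ((gram_smooth g c 0 1).mul (hDF 1))).div
      (sd_smooth g c) fun y hy => (sd_pos g hy).ne'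
  have hV1s : ContDiffOn ℝ ∞ V1 T :=
    (((gram_smooth g c 0 0).mul (hDF 1)).sub ((gram_smooth g c 0 1).mul (hDF 0))).div
      (sd_smooth g c) fun y hy => (sd_pos g hy).ne'
  have hρs := loc_contDiff hρ c
  set X0 : EE 1 → ℝ := T.indicator fun y => loc 1 c ρ y * V0 y with hX0
  set X1 : EE 1 → ℝ := T.indicator fun y => loc 1 c ρ y * V1 y with hX1
  have h00 : ∀ y ∈ T, y ∉ K → loc 1 c ρ y * V0 y = 0 := fun y hy hyK => by
    rw [hρ0 y hy hyK, zero_mul]
  have h01 : ∀ y ∈ T, y ∉ K → loc 1 c ρ y * V1 y = 0 := fun y hy hyK => by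
    rw [hρ0 y hy hyK, zero_mul]
  have hX0s : ContDiff ℝ ∞ X0 := ind_smooth hT hK hKT (hρs.mul hV0s) h00
  have hX1s : ContDiff ℝ ∞ X1 := ind_smooth hT hK hKT (hρs.mul hV1s) h01
  have hX0t : tsupport X0 ⊆ K := ind_tsupport hK h00
  have hX1t : tsupport X1 ⊆ K := ind_tsupport hK h01
  have hX0c : HasCompactSupport X0 := hK.of_isClosed_subset (isClosed_tsupport _) hX0t
  have hX1c : HasCompactSupport X1 := hK.of_isClosed_subset (isClosed_tsupport _) hX1t
  set dX0 : EE 1 → ℝ := fun y => fderiv ℝ X0 y (ev 0) with hdX0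
  set dX1 : EE 1 → ℝ := fun y => fderiv ℝ X1 y (ev 1) with hdX1
  have hdX0s : ContDiff ℝ ∞ dX0 := (hX0s.fderiv_right (by simp)).clm_apply contDiff_const
  have hdX1s : ContDiff ℝ ∞ dX1 := (hX1s.fderiv_right (by simp)).clm_apply contDiff_const
  have hdX0t : tsupport dX0 ⊆ K := (tsupport_fderiv_apply_subset ℝ (ev 0)).trans hX0t
  have hdX1t : tsupport dX1 ⊆ K := (tsupport_fderiv_apply_subset ℝ (ev 1)).trans hX1t
  have hdX0c : HasCompactSupport dX0 := hK.of_isClosed_subset (isClosed_tsupport _) hdX0t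
  have hdX1c : HasCompactSupport dX1 := hK.of_isClosed_subset (isClosed_tsupport _) hdX1t
  have hdz0 : ∀ y, y ∉ K → dX0 y = 0 := fun y hy =>
    image_eq_zero_of_notMem_tsupport fun h => hy (hdX0t h)
  have hdz1 : ∀ y, y ∉ K → dX1 y = 0 := fun y hy =>
    image_eq_zero_of_notMem_tsupport fun h => hy (hdX1t h)
  set Q : EE 1 → ℝ := fun y => (dX0 y + dX1 y) / sd g c y with hQ
  have hQs : ContDiffOn ℝ ∞ Q T := ((hdX0s.add hdX1s).contDiffOn).div (sd_smooth g c)
    fun y hy => (sd_pos g hy).ne'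
  refine ⟨(ph 1 c).source.indicator (fun x => Q (ph 1 c x)), back_smooth hK hKT hQs ?_, ?_⟩
  · intro y _ hyK
    simp only [hQ]
    rw [hdz0 y hyK, hdz1 y hyK]
    simp
  intro μ hμ w hw
  have hSm : MeasurableSet (ph 1 c).source := (isOpen_extChartAt_source c).measurableSet
  have hTm : MeasurableSet T := hT.measurableSet
  have hws : ContDiffOn ℝ ∞ (loc 1 c w) T := loc_contDiff hw c
  have hDw : ∀ i, ContDiffOn ℝ ∞ (fun y => Dloc 1 c w y (ev i)) T := fun i =>
    (Dloc_smooth hw c).clm_apply contDiffOn_const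
  -- the left side
  have hL : ∫ x, ρ x * bi g w F x ∂μ =
      ∫ y, (fderiv ℝ (loc 1 c w) y (ev 0) * X0 y + fderiv ℝ (loc 1 c w) y (ev 1) * X1 y) := by
    have e1 : ∫ x, ρ x * bi g w F x ∂μ = ∫ x in (ph 1 c).source, ρ x * bi g w F x ∂μ := by
      symm
      apply setIntegral_eq_integral_of_forall_compl_eq_zero
      intro x hx
      have : ρ x = 0 := by
        by_contra hne
        exact hx (hs (subset_tsupport _ hne))
      rw [this, zero_mul]
    set H : EE 1 → ℝ := fun y => loc 1 c ρ y *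
      ((Dloc 1 c w y (ev 0) * V0 y + Dloc 1 c w y (ev 1) * V1 y) / sd g c y) with hH
    have hHs : ContDiffOn ℝ ∞ H T := hρs.mul ((((hDw 0).mul hV0s).add ((hDw 1).mul hV1s)).div
      (sd_smooth g c) fun y hy => (sd_pos g hy).ne')
    have e2 : ∫ x in (ph 1 c).source, ρ x * bi g w F x ∂μ =
        ∫ x in (ph 1 c).source, H (ph 1 c x) ∂μ := by
      apply setIntegral_congr_fun hSm
      intro x hx
      simp only [hH]
      have hy := (ph 1 c).map_source hx
      rw [loc_val hx, bi_chart g hw hF hx]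
      congr 1
      have hp := sd_pos g hy
      have hs2 : sd g c (ph 1 c x) ^ 2 = (gram g c x).det := by
        unfold sd
        rw [(ph 1 c).left_inv hx]
        exact Real.sq_sqrt (gram_posDef g hx).det_pos.le
      simp only [hV0, hV1, A]
      rw [(ph 1 c).left_inv hx]
      unfold qf
      rw [← hs2]
      field_simp
      ring
    rw [e1, e2, int_chart hμ hbd c hHs.continuousOn]
    have e3 : ∫ y in T, sd g c y * H y = ∫ y in T,
        (fderiv ℝ (loc 1 c w) y (ev 0) * X0 y + fderiv ℝ (loc 1 c w) y (ev 1) * X1 y) := by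
      apply setIntegral_congr_fun hTm
      intro y hy
      have hp := sd_pos g hy
      simp only [hH, hX0, hX1]
      rw [indicator_of_mem hy, indicator_of_mem hy, Dloc_fd hbd w hy]
      field_simp
    rw [e3]
    apply setIntegral_eq_integral_of_forall_compl_eq_zero
    intro y hy
    simp only [hX0, hX1]
    rw [indicator_of_notMem hy, indicator_of_notMem hy]
    simp
  -- the right side
  have hR : ∫ x, w x * (ph 1 c).source.indicator (fun x => Q (ph 1 c x)) x ∂μ =
      ∫ y, (loc 1 c w y * dX0 y + loc 1 c w y * dX1 y) := by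
    have e1 : ∫ x, w x * (ph 1 c).source.indicator (fun x => Q (ph 1 c x)) x ∂μ =
        ∫ x in (ph 1 c).source, loc 1 c w (ph 1 c x) * Q (ph 1 c x) ∂μ := by
      rw [← integral_indicator hSm]
      apply integral_congr_ae
      refine Eventually.of_forall fun x => ?_
      by_cases hx : x ∈ (ph 1 c).source
      · simp only [indicator_of_mem hx]
        rw [loc_val hx]
      · simp only [indicator_of_notMem hx, mul_zero]
    rw [e1, int_chart (H := fun y => loc 1 c w y * Q y) hμ hbd c
      (hws.continuousOn.mul hQs.continuousOn)]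
    have e3 : ∫ y in T, sd g c y * (loc 1 c w y * Q y) = ∫ y in T,
        (loc 1 c w y * dX0 y + loc 1 c w y * dX1 y) := by
      apply setIntegral_congr_fun hTm
      intro y hy
      have hp := sd_pos g hy
      simp only [hQ]
      field_simp
    rw [e3]
    apply setIntegral_eq_integral_of_forall_compl_eq_zero
    intro y hy
    have hyK : y ∉ K := fun h => hy (hKT h)
    rw [hdz0 y hyK, hdz1 y hyK]
    simp
  have hW' : ∀ v, ContinuousOn (fun y => fderiv ℝ (loc 1 c w) y v) T := fun v =>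
    (hws.continuousOn_fderiv_of_isOpen hT (by simp)).clm_apply continuousOn_const
  rw [hL, hR, integral_add (integ hT (hW' _) hX0s.continuous hX0c (hX0t.trans hKT))
      (integ hT (hW' _) hX1s.continuous hX1c (hX1t.trans hKT)),
    integral_add (integ hT hws.continuousOn hdX0s.continuous hdX0c (hdX0t.trans hKT))
      (integ hT hws.continuousOn hdX1s.continuous hdX1c (hdX1t.trans hKT)),
    parts hT hws hX0s hX0c (hX0t.trans hKT), parts hT hws hX1s hX1c (hX1t.trans hKT)]
  ring

/-- Green's identity on a closed surface -/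
theorem green [CompactSpace M] (g : RMetric 1 M) (hbd : bd 1 M = ∅) {F : M → ℝ} (hF : Sm F) :
    ∃ D : M → ℝ, Sm D ∧ ∀ μ : Measure M, IsVolume g μ → ∀ w : M → ℝ, Sm w →
      ∫ x, bi g w F x ∂μ = - ∫ x, w x * D x ∂μ := by
  classical
  obtain ⟨t, ht⟩ := isCompact_univ.elim_finite_subcover (fun c : M => (ph 1 c).source)
    (fun c => isOpen_extChartAt_source c)
    (fun x _ => mem_iUnion.2 ⟨x, mem_extChartAt_source x⟩)
  have hcov : (univ : Set M) ⊆ ⋃ c : t, (ph 1 (c : M)).source := by
    intro x hx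
    obtain ⟨i, hi, hx⟩ := mem_iUnion₂.1 (ht hx)
    exact mem_iUnion.2 ⟨⟨i, hi⟩, hx⟩
  obtain ⟨f, hf⟩ := SmoothPartitionOfUnity.exists_isSubordinate (𝓡∂ (1 + 1)) isClosed_univ
    (fun c : t => (ph 1 (c : M)).source) (fun c => isOpen_extChartAt_source (c : M)) hcov
  have hloc : ∀ c : t, ∃ D : M → ℝ, Sm D ∧ ∀ μ : Measure M, IsVolume g μ → ∀ w : M → ℝ, Sm w →
      ∫ x, f c x * bi g w F x ∂μ = - ∫ x, w x * D x ∂μ := fun c =>
    local_green g hbd hF (c : M) (f c).contMDiff (HasCompactSupport.of_compactSpace _) (hf c)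
  choose D hD h using hloc
  refine ⟨fun x => ∑ c, D c x, ?_, ?_⟩
  · exact contMDiff_finsetSum fun c _ => hD c
  intro μ hμ w hw
  have := vol_locFin hμ
  have hsum : ∀ x, ∑ c, f c x = 1 := by
    intro x
    have := f.sum_eq_one (mem_univ x)
    rwa [finsum_eq_sum_of_fintype] at this
  have e1 : ∫ x, bi g w F x ∂μ = ∫ x, ∑ c, f c x * bi g w F x ∂μ := by
    congr 1
    funext x
    rw [← Finset.sum_mul, hsum x, one_mul]
  rw [e1, integral_finsetSum]
  swap
  · intro c _
    exact cont_integrable μ ((f c).contMDiff.continuous.mul (bi_smooth g hw hF).continuous)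
  simp only [Finset.mul_sum]
  rw [integral_finsetSum]
  swap
  · intro c _
    exact cont_integrable μ (hw.continuous.mul (hD c).continuous)
  rw [← Finset.sum_neg_distrib]
  exact Finset.sum_congr rfl fun c _ => h c μ hμ w hw

end Pool.Agent.W45.CS
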