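import Mathlib
import Pool.Agent.W45.CS.Green
import Pool.Agent.W45.CS.Flat
set_option autoImplicit false
open Set Filter Topology MeasureTheory Metric
open scoped ENNReal Manifold ContDiff

/-! The level set near a regular point, in flat coordinates. -/

namespace Pool.Agent.W45.CS
open Pool.Agent.W545.Man Pool.Agent.W545.CS

variable {M : Type*} [TopologicalSpace M] [ChartedSpace (EuclideanHalfSpace (1 + 1)) M]
  [IsManifold (𝓡∂ (1 + 1)) ∞ M]

/-- the derivative of the flat coordinates -/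
theorem flat_deriv {T O : Set (EE 1)} (hT : IsOpen T) (hO : IsOpen O) {f : EE 1 → ℝ}
    (hf : ContDiffOn ℝ ∞ f T) {G : EE 1 → EE 1} {l : EE 1 →L[ℝ] ℝ} (hG : ContDiffOn ℝ ∞ G O)
    (h : ∀ u ∈ O, G u ∈ T ∧ f (G u) = u 0 ∧ l (G u) = u 1) {u : EE 1} (hu : u ∈ O) (v : EE 1) :
    fderiv ℝ f (G u) (fderiv ℝ G u v) = v 0 ∧ l (fderiv ℝ G u v) = v 1 := by
  have hGu : HasFDerivAt G (fderiv ℝ G u) u :=
    ((hG.differentiableOn (by simp)).differentiableAt (hO.mem_nhds hu)).hasFDerivAt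
  have hfu : HasFDerivAt f (fderiv ℝ f (G u)) (G u) :=
    ((hf.differentiableOn (by simp)).differentiableAt (hT.mem_nhds (h u hu).1)).hasFDerivAt
  constructor
  · have h1 := hfu.comp u hGu
    have h2 : HasFDerivAt (fun u : EE 1 => u 0) (EuclideanSpace.proj (𝕜 := ℝ) (0 : Fin (1 + 1))) u :=
      (EuclideanSpace.proj (𝕜 := ℝ) (0 : Fin (1 + 1)) : EE 1 →L[ℝ] ℝ).hasFDerivAt
    have h3 : HasFDerivAt (f ∘ G) (EuclideanSpace.proj (𝕜 := ℝ) (0 : Fin (1 + 1))) u := by
      apply h2.congr_of_eventuallyEq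
      filter_upwards [hO.mem_nhds hu] with z hz
      exact (h z hz).2.1
    have := congrArg (fun A : EE 1 →L[ℝ] ℝ => A v) (h1.unique h3)
    exact this
  · have h1 := l.hasFDerivAt.comp u hGu
    have h2 : HasFDerivAt (fun u : EE 1 => u 1) (EuclideanSpace.proj (𝕜 := ℝ) (1 : Fin (1 + 1))) u :=
      (EuclideanSpace.proj (𝕜 := ℝ) (1 : Fin (1 + 1)) : EE 1 →L[ℝ] ℝ).hasFDerivAt
    have h3 : HasFDerivAt (l ∘ G) (EuclideanSpace.proj (𝕜 := ℝ) (1 : Fin (1 + 1))) u := by
      apply h2.congr_of_eventuallyEq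
      filter_upwards [hO.mem_nhds hu] with z hz
      exact (h z hz).2.2
    have := congrArg (fun A : EE 1 →L[ℝ] ℝ => A v) (h1.unique h3)
    exact this

theorem qf_pos {A : Matrix (Fin (1 + 1)) (Fin (1 + 1)) ℝ} (hA : A.PosDef)
    {L : EE 1 →L[ℝ] ℝ} (hL : L (ev 0) ≠ 0 ∨ L (ev 1) ≠ 0) : 0 < qf A L L := by
  unfold qf
  apply div_pos _ hA.det_pos
  have h' : L (ev 1) ≠ 0 ∨ -L (ev 0) ≠ 0 := by
    rcases hL with h | h
    · right; exact neg_ne_zero.2 h
    · left; exact h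
  have := quad_pos hA h'
  nlinarith

theorem arc_data (g : RMetric 1 M) (hbd : bd 1 M = ∅) {F : M → ℝ} (hF : Sm F) {q : M}
    (hq : F q = 0) (hreg : bi g F F q ≠ 0) :
    ∃ (G : EE 1 → EE 1) (jj : EE 1 → ℝ) (O : Set (EE 1)) (z0 r : ℝ), IsOpen O ∧ 0 < r ∧
      (∀ u : EE 1, |u 0| ≤ r → |u 1 - z0| ≤ r → u ∈ O) ∧ G (pt (0, z0)) = ph 1 q q ∧
      ContDiffOn ℝ ∞ G O ∧ InjOn G O ∧ (∀ B ⊆ O, IsOpen B → IsOpen (G '' B)) ∧
      (∀ u ∈ O, G u ∈ (ph 1 q).target) ∧ (∀ u ∈ O, loc 1 q F (G u) = u 0) ∧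
      ContinuousOn jj O ∧ (∀ u ∈ O, 0 < jj u) ∧
      (∀ u ∈ O, |(fderiv ℝ G u).det| *
        (√(bi g F F ((ph 1 q).symm (G u))) * sd g q (G u)) = jj u) ∧
      (∀ u ∈ O, √(coeff g.inner q ((ph 1 q).symm (G u)) (fderiv ℝ G u (ev 1))
        (fderiv ℝ G u (ev 1))) = jj u) ∧
      (∀ u ∈ O, fderiv ℝ G u (ev 1) ≠ 0) := by
  have hT : IsOpen (ph 1 q).target := tgt_open hbd q
  set T := (ph 1 q).target with hTdef
  set f := loc 1 q F with hfdef
  have hf : ContDiffOn ℝ ∞ f T := loc_contDiff hF q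
  set p := ph 1 q q with hpdef
  have hp : p ∈ T := mem_extChartAt_target q
  have hsym : (ph 1 q).symm p = q := (ph 1 q).left_inv (mem_extChartAt_source q)
  have hfp : f p = 0 := by
    simp only [hfdef, loc]
    rw [hsym]; exact hq
  have hd : fderiv ℝ f p ≠ 0 := by
    intro h
    apply hreg
    unfold bi
    rw [Dloc_fd hbd F hp, h]
    unfold qf
    simp
  obtain ⟨G, l, O, hO, hpO, hGp, hGs, hGv, hGo⟩ := flat hT hf hp hd
  rw [hfp] at hpO hGp
  obtain ⟨r, hr, hrO⟩ : ∃ r : ℝ, 0 < r ∧ ∀ u : EE 1, |u 0| ≤ r → |u 1 - l p| ≤ r → u ∈ O := by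
    have h1 : pt ⁻¹' O ∈ 𝓝 ((0, l p) : ℝ × ℝ) := (hO.preimage pt_cont).mem_nhds hpO
    obtain ⟨r, hr, h2⟩ := Metric.nhds_basis_closedBall.mem_iff.1 h1
    refine ⟨r, hr, fun u h3 h4 => ?_⟩
    have h5 : ((u 0, u 1) : ℝ × ℝ) ∈ closedBall ((0, l p) : ℝ × ℝ) r := by
      rw [mem_closedBall, Prod.dist_eq, Real.dist_eq, Real.dist_eq]
      simp only [sub_zero]
      exact max_le h3 h4
    have h6 := h2 h5
    have h7 : pt (u 0, u 1) = u := ext2 rfl rfl
    rw [mem_preimage, h7] at h6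
    exact h6
  set jdy : EE 1 → ℝ := fun y => jd (fderiv ℝ f y) l with hjdy
  -- derivative identities
  have hder : ∀ u ∈ O, ∀ v, fderiv ℝ f (G u) (fderiv ℝ G u v) = v 0 ∧
      l (fderiv ℝ G u v) = v 1 := fun u hu v => flat_deriv hT hO hf hGs hGv hu v
  have e00 := ev_val.1
  have e01 := ev_val.2.1
  have e10 := ev_val.2.2.1
  have e11 := ev_val.2.2.2
  have hdet : ∀ u ∈ O, jdy (G u) * (fderiv ℝ G u).det = 1 := by
    intro u hu
    have h := jd_mul (fderiv ℝ f (G u)) l (fderiv ℝ G u (ev 0)) (fderiv ℝ G u (ev 1))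
    rw [(hder u hu (ev 0)).1, (hder u hu (ev 0)).2, (hder u hu (ev 1)).1, (hder u hu (ev 1)).2,
      e00, e01, e10, e11] at h
    rw [det_ee]
    simp only [hjdy]
    rw [h]; ring
  have hjne : ∀ u ∈ O, jdy (G u) ≠ 0 := by
    intro u hu h0
    have := hdet u hu
    rw [h0, zero_mul] at this
    exact zero_ne_one this
  set qy : EE 1 → ℝ := fun y =>
    qf (gram g q ((ph 1 q).symm y)) (fderiv ℝ f y) (fderiv ℝ f y) with hqy
  have hfd : ContinuousOn (fderiv ℝ f) T := hf.continuousOn_fderiv_of_isOpen hT (by simp)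
  have hfde : ∀ i, ContinuousOn (fun y => fderiv ℝ f y (ev i)) T := fun i =>
    hfd.clm_apply continuousOn_const
  have hqyc : ContinuousOn qy T := by
    rw [hqy]
    unfold qf
    apply ContinuousOn.div
    · exact (((gram_smooth g q 1 1).continuousOn.mul ((hfde 0).mul (hfde 0))).sub
        ((gram_smooth g q 0 1).continuousOn.mul (((hfde 0).mul (hfde 1)).add
        ((hfde 1).mul (hfde 0))))).add ((gram_smooth g q 0 0).continuousOn.mul
        ((hfde 1).mul (hfde 1)))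
    · have : (fun y => (gram g q ((ph 1 q).symm y)).det) = fun y =>
          gram g q ((ph 1 q).symm y) 0 0 * gram g q ((ph 1 q).symm y) 1 1 -
          gram g q ((ph 1 q).symm y) 0 1 * gram g q ((ph 1 q).symm y) 1 0 := by
        funext y; exact det2 _
      rw [this]
      exact ((gram_smooth g q 0 0).continuousOn.mul (gram_smooth g q 1 1).continuousOn).sub
        ((gram_smooth g q 0 1).continuousOn.mul (gram_smooth g q 1 0).continuousOn)
    · intro y hy
      exact (gram_posDef g ((ph 1 q).map_target hy)).det_pos.ne'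
  have hjdyc : ContinuousOn jdy T := by
    rw [hjdy]
    unfold jd
    exact ((hfde 0).mul continuousOn_const).sub ((hfde 1).mul continuousOn_const)
  have hmaps : MapsTo G O T := fun u hu => (hGv u hu).1
  have hqpos : ∀ u ∈ O, 0 < qy (G u) := by
    intro u hu
    apply qf_pos (gram_posDef g ((ph 1 q).map_target (hmaps hu)))
    by_contra hcon
    push Not at hcon
    apply hjne u hu
    simp only [hjdy, jd]
    rw [hcon.1, hcon.2]
    ring
  have hbi : ∀ u ∈ O, bi g F F ((ph 1 q).symm (G u)) = qy (G u) := by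
    intro u hu
    have hy := hmaps hu
    rw [bi_chart g hF hF ((ph 1 q).map_target hy), (ph 1 q).right_inv hy, Dloc_fd hbd F hy]
  refine ⟨G, fun u => √(qy (G u)) * sd g q (G u) / |jdy (G u)|, O, l p, r, hO, hr, hrO, hGp, hGs,
    ?_, hGo, hmaps, fun u hu => (hGv u hu).2.1, ?_, ?_, ?_, ?_, ?_⟩
  · intro u hu v hv huv
    apply ext2
    · rw [← (hGv u hu).2.1, ← (hGv v hv).2.1, huv]
    · rw [← (hGv u hu).2.2, ← (hGv v hv).2.2, huv]
  · have hGc : ContinuousOn G O := hGs.continuousOn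
    apply ContinuousOn.div
    · exact (hqyc.comp hGc hmaps).sqrt.mul ((sd_smooth g q).continuousOn.comp hGc hmaps)
    · exact (hjdyc.comp hGc hmaps).abs
    · intro u hu
      exact abs_ne_zero.2 (hjne u hu)
  · intro u hu
    exact div_pos (mul_pos (Real.sqrt_pos.2 (hqpos u hu)) (sd_pos g (hmaps hu)))
      (abs_pos.2 (hjne u hu))
  · intro u hu
    rw [hbi u hu]
    have h1 : (fderiv ℝ G u).det = (jdy (G u))⁻¹ := by
      have := hdet u hu
      exact eq_inv_of_mul_eq_one_right this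
    rw [h1, abs_inv]
    ring
  · intro u hu
    have hx := (ph 1 q).map_target (hmaps hu)
    rw [coeff_quad g hx]
    set b := fderiv ℝ G u (ev 1) with hb
    have hLb := (hder u hu (ev 1)).1
    have hlb := (hder u hu (ev 1)).2
    rw [← hb, lin2, e10] at hLb
    rw [← hb, lin2, e11] at hlb
    set L := fderiv ℝ f (G u) with hL
    have hj : jdy (G u) = L (ev 0) * l (ev 1) - L (ev 1) * l (ev 0) := rfl
    have hb0 : jdy (G u) * b 0 = - L (ev 1) := by
      rw [hj]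
      linear_combination l (ev 1) * hLb - L (ev 1) * hlb
    have hb1 : jdy (G u) * b 1 = L (ev 0) := by
      rw [hj]
      linear_combination L (ev 0) * hlb - l (ev 0) * hLb
    set A := gram g q ((ph 1 q).symm (G u)) with hA
    have hAp : A.PosDef := gram_posDef g hx
    have hq1 : qy (G u) = qf A L L := rfl
    have hsd : sd g q (G u) = √A.det := rfl
    have hj2 : jdy (G u) ^ 2 ≠ 0 := pow_ne_zero 2 (hjne u hu)
    have hkey : A 0 0 * b 0 ^ 2 + 2 * A 0 1 * b 0 * b 1 + A 1 1 * b 1 ^ 2 =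
        qf A L L * A.det / jdy (G u) ^ 2 := by
      rw [eq_div_iff hj2]
      have h1 : qf A L L * A.det = A 1 1 * (L (ev 0) * L (ev 0)) - A 0 1 * (L (ev 0) * L (ev 1) +
          L (ev 1) * L (ev 0)) + A 0 0 * (L (ev 1) * L (ev 1)) := by
        unfold qf
        rw [div_mul_cancel₀ _ hAp.det_pos.ne']
      rw [h1, ← hb1]
      have h2 : L (ev 1) = -(jdy (G u) * b 0) := by rw [hb0]; ring
      rw [h2]
      ring
    rw [hkey, Real.sqrt_div' _ (sq_nonneg _), Real.sqrt_sq_eq_abs,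
      Real.sqrt_mul (qf_nonneg hAp L)]
    rfl
  · intro u hu h0
    have := (hder u hu (ev 1)).2
    rw [h0, map_zero, e11] at this
    exact zero_ne_one this

end Pool.Agent.W45.CS
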