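import Mathlib
import Pool.Agent.W45.CS.Arc
set_option autoImplicit false
open Set Filter Topology MeasureTheory Metric
open scoped ENNReal Manifold ContDiff

/-! The coarea limit: the length measure of a regular level set on a closed surface. -/

namespace Pool.Agent.W45.CS
open Pool.Agent.W545.Man Pool.Agent.W545.CS

/-- approximate identities -/
theorem approx_id {Φ : ℝ → ℝ} (hΦ : Continuous Φ) {η : ℝ} (hη : 0 < η) : ∃ δ : ℝ, 0 < δ ∧
    ∀ κ : ℝ → ℝ, Continuous κ → (∀ x, 0 ≤ κ x) → (∀ x, κ x ≠ 0 → |x| ≤ δ) → ∫ x, κ x = 1 →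
      |(∫ x, κ x * Φ x) - Φ 0| ≤ η := by
  obtain ⟨δ, hδ, h⟩ := Metric.continuousAt_iff.1 (hΦ.continuousAt (x := 0)) η hη
  refine ⟨δ / 2, by positivity, ?_⟩
  intro κ hκ hκ0 hκs hκ1
  have hcs : HasCompactSupport κ := by
    apply HasCompactSupport.of_support_subset_isCompact (isCompact_Icc (a := -(δ / 2)) (b := δ / 2))
    intro x hx
    exact abs_le.1 (hκs x hx)
  have hi : Integrable κ := hκ.integrable_of_hasCompactSupport hcs
  have hiΦ : Integrable fun x => κ x * Φ x :=
    (hκ.mul hΦ).integrable_of_hasCompactSupport (hcs.mul_right (f' := Φ))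
  have e : (∫ x, κ x * Φ x) - Φ 0 = ∫ x, κ x * (Φ x - Φ 0) := by
    simp only [mul_sub]
    rw [integral_sub hiΦ (hi.mul_const _), integral_mul_const, hκ1, one_mul]
  rw [e]
  calc |∫ x, κ x * (Φ x - Φ 0)| ≤ ∫ x, |κ x * (Φ x - Φ 0)| := abs_integral_le_integral_abs
    _ ≤ ∫ x, κ x * η := by
        apply integral_mono
        · have : Integrable fun x => κ x * (Φ x - Φ 0) := by
            simp only [mul_sub]
            exact hiΦ.sub (hi.mul_const _)
          exact this.abs
        · exact hi.mul_const _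
        · intro x
          simp only
          rw [abs_mul, abs_of_nonneg (hκ0 x)]
          by_cases hx : κ x = 0
          · rw [hx]; simp
          · apply mul_le_mul_of_nonneg_left _ (hκ0 x)
            have h1 := hκs x hx
            have h2 := @h x (by rw [Real.dist_eq, sub_zero]; linarith)
            rw [Real.dist_eq] at h2
            exact h2.le
    _ = η := by rw [integral_mul_const, hκ1, one_mul]

theorem ind_cont {T K : Set (EE 1)} (hT : IsOpen T) (hK : IsCompact K) (hKT : K ⊆ T)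
    {P : EE 1 → ℝ} (hP : ContinuousOn P T) (h0 : ∀ y ∈ T, y ∉ K → P y = 0) :
    Continuous (T.indicator P) := by
  rw [continuous_iff_continuousAt]
  intro y
  by_cases hy : y ∈ T
  · have h1 := hP.continuousAt (hT.mem_nhds hy)
    apply h1.congr
    filter_upwards [hT.mem_nhds hy] with z hz
    exact (indicator_of_mem hz _).symm
  · have hyK : y ∉ K := fun h => hy (hKT h)
    have : (fun _ => (0 : ℝ)) =ᶠ[𝓝 y] T.indicator P := by
      filter_upwards [hK.isClosed.isOpen_compl.mem_nhds hyK] with z hz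
      by_cases hzT : z ∈ T
      · rw [indicator_of_mem hzT]; exact (h0 z hzT hz).symm
      · exact (indicator_of_notMem hzT _).symm
    exact continuousAt_const.congr this

variable {M : Type*} [TopologicalSpace M] [ChartedSpace (EuclideanHalfSpace (1 + 1)) M]
  [IsManifold (𝓡∂ (1 + 1)) ∞ M] [MeasurableSpace M]

/-- the coarea limit for the weight `w` -/
def CP (g : RMetric 1 M) (F : M → ℝ) (μ ν : Measure M) (w : M → ℝ) : Prop :=
  ∀ η : ℝ, 0 < η → ∃ δ : ℝ, 0 < δ ∧ ∀ κ : ℝ → ℝ, Continuous κ → (∀ x, 0 ≤ κ x) →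
    (∀ x, κ x ≠ 0 → |x| ≤ δ) → ∫ x, κ x = 1 →
      |∫ x, w x * (κ (F x) * √(bi g F F x)) ∂μ - ∫ x, w x ∂ν| ≤ η

variable [BorelSpace M] [T2Space M] [CompactSpace M]

theorem local_coarea (g : RMetric 1 M) (hbd : bd 1 M = ∅) {F : M → ℝ} (hF : Sm F) {q : M}
    (hq : F q = 0) (hreg : bi g F F q ≠ 0) {μ ν : Measure M} (hμ : IsVolume g μ)
    (hν : IsLen g {x | F x = 0} ν) :
    ∃ U : Set M, IsOpen U ∧ q ∈ U ∧ ν U ≠ ⊤ ∧ (∀ V ∈ 𝓝 q, ν V ≠ 0) ∧
      ∀ w : M → ℝ, Continuous w → tsupport w ⊆ U → CP g F μ ν w := by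
  obtain ⟨G, jj, O, z0, r, hO, hr, hbox, hGq, hGs, hGi, hGo, hGT, hFG, hjc, hjp, hjdet, hjlen,
    hGne⟩ := arc_data g hbd hF hq hreg
  have hTo : IsOpen (ph 1 q).target := tgt_open hbd q
  have hSo : IsOpen (ph 1 q).source := isOpen_extChartAt_source q
  have hGc : ContinuousOn G O := hGs.continuousOn
  -- points of the segment
  have hseg : ∀ t, |t - z0| ≤ r → pt (0, t) ∈ O := fun t ht =>
    hbox _ (by simp [hr.le]) (by simpa using ht)
  have hseg' : ∀ t ∈ Icc (z0 - r) (z0 + r), pt (0, t) ∈ O := fun t ht =>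
    hseg t (abs_le.2 ⟨by linarith [ht.1], by linarith [ht.2]⟩)
  set γ : ℝ → EE 1 := fun t => G (pt (0, t)) with hγ
  have hptd : ∀ t : ℝ, HasDerivAt (fun t : ℝ => pt (0, t)) (ev 1) t := by
    intro t
    have : (fun t : ℝ => pt (0, t)) = fun t : ℝ => t • ev 1 := by
      funext t
      rw [pt_eq]; simp
    rw [this]
    simpa using (hasDerivAt_id t).smul_const (ev 1)
  have hptc : Continuous fun t : ℝ => pt (0, t) := pt_cont.comp (by fun_prop)
  have hγd : ∀ t ∈ Icc (z0 - r) (z0 + r),
      HasDerivAt γ (fderiv ℝ G (pt (0, t)) (ev 1)) t := by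
    intro t ht
    have h1 : HasFDerivAt G (fderiv ℝ G (pt (0, t))) (pt (0, t)) :=
      ((hGs.differentiableOn (by simp)).differentiableAt (hO.mem_nhds (hseg' t ht))).hasFDerivAt
    exact h1.comp_hasDerivAt t (hptd t)
  have hγs : ContDiffOn ℝ ∞ γ (Icc (z0 - r) (z0 + r)) := by
    have h1 : ContDiff ℝ ∞ fun t : ℝ => pt (0, t) := by
      have : (fun t : ℝ => pt (0, t)) = fun t : ℝ => t • ev 1 := by
        funext t
        rw [pt_eq]; simp
      rw [this]
      exact contDiff_id.smul contDiff_const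
    exact hGs.comp h1.contDiffOn hseg'
  -- the length measure along arcs
  have harc : ∀ a b : ℝ, z0 - r ≤ a → b ≤ z0 + r → ∀ h : M → ℝ≥0∞, Measurable h →
      ∫⁻ x in (ph 1 q).symm '' (γ '' Ioo a b), h x ∂ν =
        ∫⁻ t in Ioo a b, h ((ph 1 q).symm (γ t)) * ENNReal.ofReal (jj (pt (0, t))) := by
    intro a b ha hb h hh
    have hsub : Ioo a b ⊆ Icc (z0 - r) (z0 + r) := fun t ht =>
      ⟨ha.trans ht.1.le, ht.2.le.trans hb⟩
    rw [hν.2 q γ a b (hγs.mono hsub) ?_ ?_ h hh]
    · apply setLIntegral_congr_fun measurableSet_Ioo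
      intro t ht
      simp only
      rw [(hγd t (hsub ht)).deriv, ← hjlen _ (hseg' t (hsub ht))]
    · intro t ht s hs hts
      have := hGi (hseg' t (hsub ht)) (hseg' s (hsub hs)) hts
      exact congrArg (fun u : EE 1 => u 1) this
    · intro t ht
      refine ⟨?_, hGT _ (hseg' t (hsub ht)), ?_⟩
      · rw [(hγd t (hsub ht)).deriv]
        exact hGne _ (hseg' t (hsub ht))
      · exact hFG _ (hseg' t (hsub ht))
  -- the box
  set Bx : Set (EE 1) := {u | |u 0| < r ∧ |u 1 - z0| < r} with hBx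
  have hc0 : Continuous fun u : EE 1 => u 0 := by fun_prop
  have hc1 : Continuous fun u : EE 1 => u 1 := by fun_prop
  have hBxo : IsOpen Bx := (isOpen_lt hc0.abs continuous_const).inter
    (isOpen_lt (hc1.sub continuous_const).abs continuous_const)
  have hBxO : Bx ⊆ O := fun u hu => hbox u hu.1.le hu.2.le
  have hN : IsOpen (G '' Bx) := hGo Bx hBxO hBxo
  have hNT : G '' Bx ⊆ (ph 1 q).target := by
    rintro _ ⟨u, hu, rfl⟩
    exact hGT u (hBxO hu)
  set U : Set M := (ph 1 q).source ∩ (ph 1 q) ⁻¹' (G '' Bx) with hU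
  have hUo : IsOpen U := by
    have := isOpen_extChartAt_preimage (I := 𝓡∂ (1 + 1)) q hN
    rwa [← extChartAt_source (𝓡∂ (1 + 1))] at this
  have hp0 : pt (0, z0) ∈ Bx := by
    refine ⟨by simpa using hr, by simpa using hr⟩
  have hqU : q ∈ U := ⟨mem_extChartAt_source q, pt (0, z0), hp0, hGq⟩
  -- the arc
  have hUarc : U ∩ {x | F x = 0} = (ph 1 q).symm '' (γ '' Ioo (z0 - r) (z0 + r)) := by
    ext x
    constructor
    · rintro ⟨⟨hx, u, hu, hux⟩, hFx⟩
      have hu0 : u 0 = 0 := by
        rw [← hFG u (hBxO hu), hux, loc_val hx]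
        exact hFx
      have hupt : pt (0, u 1) = u := ext2 hu0.symm rfl
      refine ⟨G u, ⟨u 1, ?_, ?_⟩, ?_⟩
      · have := abs_lt.1 hu.2
        exact ⟨by linarith [this.1], by linarith [this.2]⟩
      · simp only [hγ]
        rw [hupt]
      · rw [hux]
        exact (ph 1 q).left_inv hx
    · rintro ⟨_, ⟨t, ht, rfl⟩, rfl⟩
      have htO := hseg' t (Ioo_subset_Icc_self ht)
      refine ⟨⟨(ph 1 q).map_target (hGT _ htO), ?_⟩, hFG _ htO⟩
      rw [mem_preimage, (ph 1 q).right_inv (hGT _ htO)]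
      refine ⟨pt (0, t), ⟨by simpa using hr, ?_⟩, rfl⟩
      rw [pt_one, abs_lt]
      exact ⟨by linarith [ht.1], by linarith [ht.2]⟩
  have hΓm : MeasurableSet {x : M | F x = 0} :=
    (isClosed_eq hF.continuous continuous_const).measurableSet
  have hUm : MeasurableSet U := hUo.measurableSet
  have harcm : MeasurableSet ((ph 1 q).symm '' (γ '' Ioo (z0 - r) (z0 + r))) := by
    rw [← hUarc]; exact hUm.inter hΓm
  have hjtc : ContinuousOn (fun t => jj (pt (0, t))) (Icc (z0 - r) (z0 + r)) :=
    hjc.comp hptc.continuousOn hseg'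
  have hone : ∀ a b : ℝ, z0 - r ≤ a → b ≤ z0 + r →
      ν ((ph 1 q).symm '' (γ '' Ioo a b)) = ∫⁻ t in Ioo a b, ENNReal.ofReal (jj (pt (0, t))) := by
    intro a b ha hb
    have := harc a b ha hb (fun _ => 1) measurable_const
    simpa using this
  refine ⟨U, hUo, hqU, ?_, ?_, ?_⟩
  · -- finiteness
    have h1 : ν U ≤ ν ((ph 1 q).symm '' (γ '' Ioo (z0 - r) (z0 + r))) := by
      rw [← hUarc]
      calc ν U ≤ ν ((U ∩ {x | F x = 0}) ∪ {x | F x = 0}ᶜ) := measure_mono fun x hx => by
            by_cases h : F x = 0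
            · exact Or.inl ⟨hx, h⟩
            · exact Or.inr h
        _ ≤ ν (U ∩ {x | F x = 0}) + ν {x | F x = 0}ᶜ := measure_union_le _ _
        _ = _ := by rw [hν.1, add_zero]
    have h2 : ν ((ph 1 q).symm '' (γ '' Ioo (z0 - r) (z0 + r))) < ⊤ := by
      rw [hone _ _ le_rfl le_rfl]
      exact (hjtc.integrableOn_Icc.mono_set Ioo_subset_Icc_self).lintegral_lt_top
    exact (h1.trans_lt h2).ne
  · -- positivity
    intro V hV h0
    have hcont : ContinuousAt (fun t => (ph 1 q).symm (γ t)) z0 := by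
      have h1 : ContinuousAt γ z0 := (hγd z0 ⟨by linarith, by linarith⟩).continuousAt
      have h2 : ContinuousAt (ph 1 q).symm (γ z0) := by
        have e : γ z0 = ph 1 q q := hGq
        rw [e]
        exact continuousAt_extChartAt_symm q
      exact ContinuousAt.comp h2 h1
    have hz : (ph 1 q).symm (γ z0) = q := by
      have e : γ z0 = ph 1 q q := hGq
      rw [e]; exact (ph 1 q).left_inv (mem_extChartAt_source q)
    have hpre : (fun t => (ph 1 q).symm (γ t)) ⁻¹' V ∈ 𝓝 z0 := hcont (by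
      simp only
      rw [hz]; exact hV)
    obtain ⟨ε, hε, hεV⟩ := Metric.mem_nhds_iff.1 hpre
    set s := min ε r with hs
    have hs0 : 0 < s := lt_min hε hr
    have hsr : s ≤ r := min_le_right _ _
    have hsub : (ph 1 q).symm '' (γ '' Ioo (z0 - s) (z0 + s)) ⊆ V := by
      rintro _ ⟨_, ⟨t, ht, rfl⟩, rfl⟩
      apply hεV
      rw [mem_ball, Real.dist_eq, abs_lt]
      have : s ≤ ε := min_le_left _ _
      exact ⟨by linarith [ht.1], by linarith [ht.2]⟩
    have h1 := measure_mono_null hsub h0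
    rw [hone _ _ (by linarith) (by linarith)] at h1
    obtain ⟨t0, ht0, hmin⟩ := (isCompact_Icc (a := z0 - r) (b := z0 + r)).exists_isMinOn
      ⟨z0, by linarith, by linarith⟩ hjtc
    have hm : 0 < jj (pt (0, t0)) := hjp _ (hseg' t0 ht0)
    have h2 : ENNReal.ofReal (jj (pt (0, t0))) * ENNReal.ofReal ((z0 + s) - (z0 - s)) ≤ 0 := by
      rw [← h1, ← Real.volume_Ioo, ← setLIntegral_const]
      apply setLIntegral_mono' measurableSet_Ioo
      intro t ht
      apply ENNReal.ofReal_le_ofReal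
      exact hmin (show t ∈ Icc (z0 - r) (z0 + r) from ⟨by linarith [ht.1], by linarith [ht.2]⟩)
    have h3 := nonpos_iff_eq_zero.1 h2
    rw [mul_eq_zero, ENNReal.ofReal_eq_zero, ENNReal.ofReal_eq_zero] at h3
    rcases h3 with h3 | h3 <;> linarith
  · -- the limit
    intro w hw hwU
    have hwloc : ContinuousOn (loc 1 q w) (ph 1 q).target :=
      hw.comp_continuousOn (continuousOn_extChartAt_symm q)
    set K' : Set (EE 1) := ph 1 q '' tsupport w with hK'
    have hwc : IsCompact (tsupport w) := (isClosed_tsupport w).isCompact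
    have hK'c : IsCompact K' := hwc.image_of_continuousOn
      ((continuousOn_extChartAt q).mono fun x hx => (hwU hx).1)
    have hK'N : K' ⊆ G '' Bx := by
      rintro _ ⟨x, hx, rfl⟩
      exact (hwU hx).2
    have hw0 : ∀ y ∈ (ph 1 q).target, y ∉ K' → loc 1 q w y = 0 := by
      intro y hy hyK
      by_contra hne
      exact hyK ⟨(ph 1 q).symm y, subset_tsupport _ hne, (ph 1 q).right_inv hy⟩
    -- compact support in the box
    set C : Set (EE 1) := {u | |u 0| ≤ r ∧ |u 1 - z0| ≤ r} with hC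
    have hCc : IsCompact C := by
      have : C = pt '' (Icc (-r) r ×ˢ Icc (z0 - r) (z0 + r)) := by
        ext u
        constructor
        · rintro ⟨h1, h2⟩
          rw [abs_le] at h1 h2
          exact ⟨(u 0, u 1), ⟨h1, by linarith [h2.1], by linarith [h2.2]⟩, ext2 rfl rfl⟩
        · rintro ⟨p, ⟨h1, h2⟩, rfl⟩
          refine ⟨abs_le.2 h1, abs_le.2 ⟨?_, ?_⟩⟩
          · rw [pt_one]; linarith [h2.1]
          · rw [pt_one]; linarith [h2.2]
      rw [this]
      exact (isCompact_Icc.prod isCompact_Icc).image pt_cont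
    have hCO : C ⊆ O := fun u hu => hbox u hu.1 hu.2
    set S : Set (EE 1) := C ∩ G ⁻¹' K' with hS
    have hSc : IsCompact S := by
      apply hCc.of_isClosed_subset _ inter_subset_left
      exact (hGc.mono hCO).preimage_isClosed_of_isClosed hCc.isClosed hK'c.isClosed
    have hSB : S ⊆ Bx := by
      rintro u ⟨hu1, hu2⟩
      obtain ⟨v, hv, hvu⟩ := hK'N hu2
      have := hGi (hBxO hv) (hCO hu1) hvu
      rw [← this]; exact hv
    set hh : EE 1 → ℝ := Bx.indicator fun u => loc 1 q w (G u) * jj u with hhh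
    have hP : ContinuousOn (fun u => loc 1 q w (G u) * jj u) Bx :=
      (hwloc.comp (hGc.mono hBxO) fun u hu => hGT u (hBxO hu)).mul (hjc.mono hBxO)
    have hP0 : ∀ u ∈ Bx, u ∉ S → loc 1 q w (G u) * jj u = 0 := by
      intro u hu huS
      have : G u ∉ K' := fun h => huS ⟨⟨hu.1.le, hu.2.le⟩, h⟩
      rw [hw0 _ (hGT u (hBxO hu)) this, zero_mul]
    have hhc : Continuous hh := ind_cont hBxo hSc hSB hP hP0
    have hht : tsupport hh ⊆ S := ind_tsupport hSc hP0
    have hhs : HasCompactSupport hh := hSc.of_isClosed_subset (isClosed_tsupport _) hht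
    set Φ : ℝ → ℝ := fun τ => ∫ z in Icc (z0 - r) (z0 + r), hh (pt (τ, z)) with hΦ
    have hΦc : Continuous Φ := by
      apply continuous_parametric_integral_of_continuous (f := fun τ z => hh (pt (τ, z))) _
        isCompact_Icc
      exact hhc.comp pt_cont
    have hΦ' : ∀ τ, Φ τ = ∫ z, hh (pt (τ, z)) := by
      intro τ
      apply setIntegral_eq_integral_of_forall_compl_eq_zero
      intro z hz
      apply indicator_of_notMem
      intro hB
      apply hz
      have := abs_lt.1 hB.2
      rw [pt_one] at this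
      exact ⟨by linarith [this.1], by linarith [this.2]⟩
    -- the integral over the surface
    have hL : ∀ κ : ℝ → ℝ, Continuous κ →
        ∫ x, w x * (κ (F x) * √(bi g F F x)) ∂μ = ∫ τ, κ τ * Φ τ := by
      intro κ hκ
      set H : EE 1 → ℝ := fun y => loc 1 q w y * (κ (loc 1 q F y) *
        √(bi g F F ((ph 1 q).symm y))) with hH
      have hHc : ContinuousOn H (ph 1 q).target := by
        apply hwloc.mul
        apply ContinuousOn.mul
        · exact hκ.comp_continuousOn (hF.continuous.comp_continuousOn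
            (continuousOn_extChartAt_symm q))
        · exact ((bi_smooth g hF hF).continuous.comp_continuousOn
            (continuousOn_extChartAt_symm q)).sqrt
      have s1 : ∫ x, w x * (κ (F x) * √(bi g F F x)) ∂μ =
          ∫ x in (ph 1 q).source, H (ph 1 q x) ∂μ := by
        rw [← setIntegral_eq_integral_of_forall_compl_eq_zero (s := (ph 1 q).source)]
        · apply setIntegral_congr_fun hSo.measurableSet
          intro x hx
          simp only [hH]
          rw [loc_val hx, loc_val hx, (ph 1 q).left_inv hx]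
        · intro x hx
          have : w x = 0 := by
            by_contra hne
            exact hx (hwU (subset_tsupport _ hne)).1
          rw [this, zero_mul]
      have s2 : ∫ y in (ph 1 q).target, sd g q y * H y = ∫ y in G '' Bx, sd g q y * H y := by
        apply setIntegral_eq_of_subset_of_forall_sdiff_eq_zero hTo.measurableSet hNT
        intro y hy
        simp only [hH]
        rw [hw0 y hy.1 fun h => hy.2 (hK'N h)]
        ring
      have s3 : ∫ y in G '' Bx, sd g q y * H y =
          ∫ u in Bx, |(fderiv ℝ G u).det| • (sd g q (G u) * H (G u)) := by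
        apply integral_image_eq_integral_abs_det_fderiv_smul volume hBxo.measurableSet
        · intro u hu
          exact ((hGs.differentiableOn (by simp)).differentiableAt
            (hO.mem_nhds (hBxO hu))).hasFDerivAt.hasFDerivWithinAt
        · exact hGi.mono hBxO
      have s4 : ∫ u in Bx, |(fderiv ℝ G u).det| • (sd g q (G u) * H (G u)) =
          ∫ u in Bx, κ (u 0) * hh u := by
        apply setIntegral_congr_fun hBxo.measurableSet
        intro u hu
        simp only [hH, hhh, smul_eq_mul]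
        rw [indicator_of_mem hu, ← hjdet u (hBxO hu), hFG u (hBxO hu)]
        ring
      have s5 : ∫ u in Bx, κ (u 0) * hh u = ∫ u, κ (u 0) * hh u := by
        apply setIntegral_eq_integral_of_forall_compl_eq_zero
        intro u hu
        simp only [hhh]
        rw [indicator_of_notMem hu, mul_zero]
      have s6 : ∫ u, κ (u 0) * hh u = ∫ p : ℝ × ℝ, κ p.1 * hh (pt p) := by
        rw [← pt_mp.integral_comp pt_emb]
        rfl
      have hint : Integrable (fun p : ℝ × ℝ => κ p.1 * hh (pt p))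
          ((volume : Measure ℝ).prod (volume : Measure ℝ)) := by
        have hcs : HasCompactSupport fun u : EE 1 => κ (u 0) * hh u := hhs.mul_left
        have h1 : Integrable (fun u : EE 1 => κ (u 0) * hh u) volume :=
          ((hκ.comp hc0).mul hhc).integrable_of_hasCompactSupport hcs
        exact (pt_mp.integrable_comp_emb pt_emb).2 h1
      rw [s1, int_chart hμ hbd q hHc, s2, s3, s4, s5, s6, Measure.volume_eq_prod,
        integral_prod _ hint]
      congr 1
      funext τ
      rw [hΦ' τ, ← integral_const_mul]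
    -- the integral over the curve
    have hR : ∫ x, w x ∂ν = Φ 0 := by
      set arc := (ph 1 q).symm '' (γ '' Ioo (z0 - r) (z0 + r)) with harcdef
      have t1 : ∫ x, w x ∂ν = ∫ x in arc, w x ∂ν := by
        symm
        rw [← integral_indicator harcm]
        apply integral_congr_ae
        have h0 : ∀ᵐ x ∂ν, F x = 0 := by
          rw [ae_iff]
          exact hν.1
        filter_upwards [h0] with x hx
        by_cases hxa : x ∈ arc
        · rw [indicator_of_mem hxa]
        · rw [indicator_of_notMem hxa]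
          by_contra hne
          apply hxa
          rw [← hUarc]
          exact ⟨hwU (subset_tsupport _ (fun h => hne h.symm)), hx⟩
      have hγm : AEMeasurable (fun t => (ph 1 q).symm (γ t))
          (volume.restrict (Ioo (z0 - r) (z0 + r))) := by
        have : ContinuousOn (fun t => (ph 1 q).symm (γ t)) (Ioo (z0 - r) (z0 + r)) :=
          (continuousOn_extChartAt_symm q).comp
            (hγs.continuousOn.mono Ioo_subset_Icc_self)
            fun t ht => hGT _ (hseg' t (Ioo_subset_Icc_self ht))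
        exact this.aemeasurable measurableSet_Ioo
      have hjm : AEMeasurable (fun t => ENNReal.ofReal (jj (pt (0, t))))
          (volume.restrict (Ioo (z0 - r) (z0 + r))) :=
        ((hjtc.mono Ioo_subset_Icc_self).aemeasurable measurableSet_Ioo).ennreal_ofReal
      have hmeas : ν.restrict arc = ((volume.restrict (Ioo (z0 - r) (z0 + r))).withDensity
          (fun t => ENNReal.ofReal (jj (pt (0, t))))).map (fun t => (ph 1 q).symm (γ t)) := by
        apply Measure.ext_of_lintegral
        intro f hf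
        rw [harc _ _ le_rfl le_rfl f hf, lintegral_map' hf.aemeasurable
          (hγm.mono_ac (withDensity_absolutelyContinuous _ _)),
          lintegral_withDensity_eq_lintegral_mul₀ hjm]
        · apply lintegral_congr
          intro t
          rw [Pi.mul_apply, mul_comm]
        · exact hf.comp_aemeasurable hγm
      rw [t1, hmeas, integral_map (hγm.mono_ac (withDensity_absolutelyContinuous _ _))
        hw.aestronglyMeasurable, integral_withDensity_eq_integral_toReal_smul₀ hjm
        (Eventually.of_forall fun t => ENNReal.ofReal_lt_top)]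
      simp only [hΦ]
      rw [← integral_Icc_eq_integral_Ioo]
      apply setIntegral_congr_ae measurableSet_Icc
      have h1 : ∀ᵐ t : ℝ, t ≠ z0 - r := by
        rw [ae_iff]; simp
      have h2 : ∀ᵐ t : ℝ, t ≠ z0 + r := by
        rw [ae_iff]; simp
      filter_upwards [h1, h2] with t ht1 ht2 ht
      have htI : t ∈ Ioo (z0 - r) (z0 + r) :=
        ⟨lt_of_le_of_ne ht.1 (Ne.symm ht1), lt_of_le_of_ne ht.2 ht2⟩
      have hB : pt (0, t) ∈ Bx := by
        refine ⟨by simpa using hr, ?_⟩
        rw [pt_one, abs_lt]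
        exact ⟨by linarith [htI.1], by linarith [htI.2]⟩
      simp only [hhh, smul_eq_mul]
      rw [indicator_of_mem hB, ENNReal.toReal_ofReal (hjp _ (hBxO hB)).le]
      simp only [loc, hγ]
      ring
    intro η hη
    obtain ⟨δ, hδ, h⟩ := approx_id hΦc hη
    refine ⟨δ, hδ, fun κ h1 h2 h3 h4 => ?_⟩
    rw [hL κ h1, hR]
    exact h κ h1 h2 h3 h4

theorem local_all (g : RMetric 1 M) (hbd : bd 1 M = ∅) {F : M → ℝ} (hF : Sm F)
    (hreg : ∀ x, F x = 0 → bi g F F x ≠ 0) {μ ν : Measure M} (hμ : IsVolume g μ)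
    (hν : IsLen g {x | F x = 0} ν) (q : M) :
    ∃ U : Set M, IsOpen U ∧ q ∈ U ∧ ν U ≠ ⊤ ∧
      ∀ w : M → ℝ, Continuous w → tsupport w ⊆ U → CP g F μ ν w := by
  by_cases hq : F q = 0
  · obtain ⟨U, h1, h2, h3, -, h4⟩ := local_coarea g hbd hF hq (hreg q hq) hμ hν
    exact ⟨U, h1, h2, h3, h4⟩
  have hset : {x : M | F x ≠ 0} = {x | F x = 0}ᶜ := rfl
  refine ⟨{x | F x ≠ 0}, isOpen_ne_fun hF.continuous continuous_const, hq, ?_, ?_⟩
  · rw [hset, hν.1]
    exact ENNReal.zero_ne_top
  intro w hw hwU η hη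
  have hwc : IsCompact (tsupport w) := (isClosed_tsupport w).isCompact
  obtain ⟨m, hm, hmF⟩ : ∃ m : ℝ, 0 < m ∧ ∀ x ∈ tsupport w, m ≤ |F x| := by
    by_cases hne : (tsupport w).Nonempty
    · obtain ⟨x0, hx0, hmin⟩ := hwc.exists_isMinOn hne
        (f := fun x => |F x|) hF.continuous.abs.continuousOn
      exact ⟨|F x0|, abs_pos.2 (hwU hx0), fun x hx => hmin hx⟩
    · refine ⟨1, one_pos, fun x hx => absurd ⟨x, hx⟩ hne⟩
  refine ⟨m / 2, by positivity, fun κ _ _ hκs _ => ?_⟩
  have e1 : ∫ x, w x * (κ (F x) * √(bi g F F x)) ∂μ = 0 := by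
    have : ∀ x, w x * (κ (F x) * √(bi g F F x)) = 0 := by
      intro x
      by_cases hx : w x = 0
      · rw [hx, zero_mul]
      · have h1 := hmF x (subset_tsupport _ hx)
        have h2 : κ (F x) = 0 := by
          by_contra hne
          have := hκs _ hne
          linarith
        rw [h2]; ring
    simp only [this]
    simp
  have e2 : ∫ x, w x ∂ν = 0 := by
    apply integral_eq_zero_of_ae
    have h0 : ∀ᵐ x ∂ν, F x = 0 := by
      rw [ae_iff]
      exact hν.1
    filter_upwards [h0] with x hx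
    by_contra hne
    exact hwU (subset_tsupport _ hne) hx
  rw [e1, e2]
  simpa using hη.le

/-- the length of a regular level set is finite -/
theorem len_finite (g : RMetric 1 M) (hbd : bd 1 M = ∅) {F : M → ℝ} (hF : Sm F)
    (hreg : ∀ x, F x = 0 → bi g F F x ≠ 0) {μ ν : Measure M} (hμ : IsVolume g μ)
    (hν : IsLen g {x | F x = 0} ν) : ν univ ≠ ⊤ := by
  have : IsLocallyFiniteMeasure ν := by
    refine ⟨fun q => ?_⟩
    obtain ⟨U, h1, h2, h3, -⟩ := local_all g hbd hF hreg hμ hν q
    exact ⟨U, h1.mem_nhds h2, h3.lt_top⟩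
  exact isCompact_univ.measure_lt_top.ne

/-- the length measure charges all neighbourhoods of points of the level set -/
theorem len_pos (g : RMetric 1 M) (hbd : bd 1 M = ∅) {F : M → ℝ} (hF : Sm F)
    (hreg : ∀ x, F x = 0 → bi g F F x ≠ 0) {μ ν : Measure M} (hμ : IsVolume g μ)
    (hν : IsLen g {x | F x = 0} ν) {q : M} (hq : F q = 0) {U : Set M} (hU : U ∈ 𝓝 q) :
    ν U ≠ 0 := by
  obtain ⟨-, -, -, -, h, -⟩ := local_coarea g hbd hF hq (hreg q hq) hμ hν
  exact h U hU

omit [T2Space M] in
theorem CP_add (g : RMetric 1 M) {F : M → ℝ} (hF : Sm F) {μ ν : Measure M}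
    [IsFiniteMeasure μ] [IsFiniteMeasure ν] {w1 w2 : M → ℝ} (h1 : Continuous w1)
    (h2 : Continuous w2) (c1 : CP g F μ ν w1) (c2 : CP g F μ ν w2) : CP g F μ ν (w1 + w2) := by
  intro η hη
  obtain ⟨δ1, hδ1, k1⟩ := c1 (η / 2) (by positivity)
  obtain ⟨δ2, hδ2, k2⟩ := c2 (η / 2) (by positivity)
  refine ⟨min δ1 δ2, lt_min hδ1 hδ2, fun κ a1 a2 a3 a4 => ?_⟩
  have l1 := k1 κ a1 a2 (fun x hx => (a3 x hx).trans (min_le_left _ _)) a4
  have l2 := k2 κ a1 a2 (fun x hx => (a3 x hx).trans (min_le_right _ _)) a4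
  have hc : Continuous fun x => κ (F x) * √(bi g F F x) :=
    (a1.comp hF.continuous).mul (bi_smooth g hF hF).continuous.sqrt
  have e1 : ∫ x, (w1 + w2) x * (κ (F x) * √(bi g F F x)) ∂μ =
      ∫ x, w1 x * (κ (F x) * √(bi g F F x)) ∂μ + ∫ x, w2 x * (κ (F x) * √(bi g F F x)) ∂μ := by
    have i1 : Integrable (fun x => w1 x * (κ (F x) * √(bi g F F x))) μ :=
      cont_integrable μ (h1.mul hc)
    have i2 : Integrable (fun x => w2 x * (κ (F x) * √(bi g F F x))) μ :=
      cont_integrable μ (h2.mul hc)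
    rw [← integral_add i1 i2]
    congr 1
    funext x
    simp only [Pi.add_apply]
    ring
  have e2 : ∫ x, (w1 + w2) x ∂ν = ∫ x, w1 x ∂ν + ∫ x, w2 x ∂ν := by
    simp only [Pi.add_apply]
    exact integral_add (cont_integrable ν h1) (cont_integrable ν h2)
  rw [e1, e2]
  have : ∀ a b c d : ℝ, a + b - (c + d) = (a - c) + (b - d) := fun a b c d => by ring
  rw [this]
  refine (abs_add_le _ _).trans ?_
  linarith

/-- the coarea limit -/
theorem coarea (g : RMetric 1 M) (hbd : bd 1 M = ∅) {F : M → ℝ} (hF : Sm F)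
    (hreg : ∀ x, F x = 0 → bi g F F x ≠ 0) {μ ν : Measure M} (hμ : IsVolume g μ)
    (hν : IsLen g {x | F x = 0} ν) {w : M → ℝ} (hw : Continuous w) {η : ℝ} (hη : 0 < η) :
    ∃ δ : ℝ, 0 < δ ∧ ∀ κ : ℝ → ℝ, Continuous κ → (∀ x, 0 ≤ κ x) →
      (∀ x, κ x ≠ 0 → |x| ≤ δ) → ∫ x, κ x = 1 →
        |∫ x, w x * (κ (F x) * √(bi g F F x)) ∂μ - ∫ x, w x ∂ν| ≤ η := by
  classical
  have := vol_locFin hμ
  have hνf : IsFiniteMeasure ν := ⟨(len_finite g hbd hF hreg hμ hν).lt_top⟩
  choose U hUo hqU hUf hUC using local_all g hbd hF hreg hμ hν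
  obtain ⟨t, ht⟩ := isCompact_univ.elim_finite_subcover U hUo
    (fun x _ => mem_iUnion.2 ⟨x, hqU x⟩)
  have hcov : (univ : Set M) ⊆ ⋃ c : t, U (c : M) := by
    intro x hx
    obtain ⟨i, hi, hx⟩ := mem_iUnion₂.1 (ht hx)
    exact mem_iUnion.2 ⟨⟨i, hi⟩, hx⟩
  obtain ⟨f, hf⟩ := SmoothPartitionOfUnity.exists_isSubordinate (𝓡∂ (1 + 1)) isClosed_univ
    (fun c : t => U (c : M)) (fun c => hUo (c : M)) hcov
  have hsum : ∀ x, ∑ c, f c x = 1 := by
    intro x
    have := f.sum_eq_one (mem_univ x)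
    rwa [finsum_eq_sum_of_fintype] at this
  have hw' : w = ∑ c, fun x => f c x * w x := by
    funext x
    rw [Finset.sum_apply, ← Finset.sum_mul, hsum x, one_mul]
  have key : Continuous w ∧ CP g F μ ν w := by
    rw [hw']
    refine Finset.sum_induction _ (fun w => Continuous w ∧ CP g F μ ν w) ?_ ?_ ?_
    · rintro w1 w2 ⟨a1, a2⟩ ⟨b1, b2⟩
      exact ⟨a1.add b1, CP_add g hF a1 b1 a2 b2⟩
    · refine ⟨continuous_const, fun η hη => ⟨1, one_pos, fun κ _ _ _ _ => ?_⟩⟩
      simpa using hη.le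
    · intro c _
      have hc : Continuous fun x => f c x * w x := (f c).contMDiff.continuous.mul hw
      refine ⟨hc, hUC (c : M) _ hc ?_⟩
      exact (closure_mono (Function.support_mul_subset_left (f c) w)).trans (hf c)
  exact key.2 η hη

end Pool.Agent.W45.CS
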