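import Mathlib
import Pool.Agent.W45.CS.Coarea
import Pool.Agent.W545.Man.Pigeon
set_option autoImplicit false
open Set Filter Topology MeasureTheory Metric
open scoped ENNReal Manifold ContDiff

/-! Finiteness of the Steklov type eigenvalues of a regular level set on a closed surface. -/

namespace Pool.Agent.W45.CS
open Pool.Agent.W545.Man Pool.Agent.W545.CS

variable {M : Type*} [TopologicalSpace M] [ChartedSpace (EuclideanHalfSpace (1 + 1)) M]
  [IsManifold (𝓡∂ (1 + 1)) ∞ M]

/-- a regular level set has many points -/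
theorem many_points (g : RMetric 1 M) (hbd : bd 1 M = ∅) {F : M → ℝ} (hF : Sm F) {q : M}
    (hq : F q = 0) (hreg : bi g F F q ≠ 0) (n : ℕ) :
    ∃ p : Fin n → M, Function.Injective p ∧ ∀ i, F (p i) = 0 := by
  obtain ⟨G, jj, O, z0, r, hO, hr, hbox, hGq, hGs, hGi, hGo, hGT, hFG, -⟩ :=
    arc_data g hbd hF hq hreg
  set t : Fin n → ℝ := fun i => z0 + r * ((i : ℕ) / (n : ℝ)) with ht
  have htO : ∀ i, pt (0, t i) ∈ O := by
    intro i
    apply hbox
    · simp [hr.le]
    · rw [pt_one]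
      simp only [ht]
      have hn : (0 : ℝ) < n := by exact_mod_cast (i.pos)
      have h1 : (0 : ℝ) ≤ (i : ℕ) / (n : ℝ) := by positivity
      have h2 : ((i : ℕ) : ℝ) / (n : ℝ) ≤ 1 := by
        rw [div_le_one hn]
        exact_mod_cast i.2.le
      rw [add_sub_cancel_left, abs_of_nonneg (by positivity)]
      nlinarith
  refine ⟨fun i => (ph 1 q).symm (G (pt (0, t i))), ?_, fun i => hFG _ (htO i)⟩
  intro i j hij
  have h1 : G (pt (0, t i)) = G (pt (0, t j)) := by
    have := congrArg (ph 1 q) hij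
    simp only at this
    rwa [(ph 1 q).right_inv (hGT _ (htO i)), (ph 1 q).right_inv (hGT _ (htO j))] at this
  have h2 := hGi (htO i) (htO j) h1
  have h3 : t i = t j := congrArg (fun u : EE 1 => u 1) h2
  simp only [ht] at h3
  have hn : (n : ℝ) ≠ 0 := by
    have : (0 : ℝ) < n := by exact_mod_cast (i.pos)
    exact this.ne'
  have h4 : ((i : ℕ) : ℝ) = ((j : ℕ) : ℝ) := by
    have h5 := mul_left_cancel₀ hr.ne' (add_left_cancel h3)
    field_simp at h5
    exact h5
  exact Fin.ext (by exact_mod_cast h4)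

variable [MeasurableSpace M] [BorelSpace M] [T2Space M] [CompactSpace M]

theorem gradSq_meas (g : RMetric 1 M) {u : M → ℝ} (hu : Sm u) :
    Measurable fun x => gradSq g u x := by
  have : (fun x => gradSq g u x) = fun x => ENNReal.ofReal (bi g u u x) := by
    funext x
    exact (bi_self g hu x).symm
  rw [this]
  exact (bi_smooth g hu hu).continuous.measurable.ennreal_ofReal

theorem energy_ne_top {g : RMetric 1 M} {μ : Measure M} (hμ : IsVolume g μ) {u : M → ℝ}
    (hu : Sm u) : energy g μ u ≠ ⊤ := by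
  have := vol_locFin hμ
  unfold energy
  have e : ∫⁻ x, gradSq g u x ∂μ = ∫⁻ x, ENNReal.ofReal (bi g u u x) ∂μ := by
    apply lintegral_congr
    intro x
    exact (bi_self g hu x).symm
  rw [e]
  exact (cont_integrable μ (bi_smooth g hu hu).continuous).lintegral_lt_top.ne

theorem sigma_ne_top (g : RMetric 1 M) (hbd : bd 1 M = ∅) {F : M → ℝ} (hF : Sm F)
    (hreg : ∀ x, F x = 0 → bi g F F x ≠ 0) {μ ν : Measure M} (hμ : IsVolume g μ)
    (hν : IsLen g {x | F x = 0} ν) (hne : ∃ q, F q = 0) (k : ℕ) : sigma k g μ ν ≠ ⊤ := by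
  classical
  obtain ⟨q, hq⟩ := hne
  have hνf : IsFiniteMeasure ν := ⟨(len_finite g hbd hF hreg hμ hν).lt_top⟩
  obtain ⟨p, hpi, hpF⟩ := many_points g hbd hF hq (hreg q hq) (k + 1)
  obtain ⟨U, hU1, hU2⟩ := (Set.finite_range p).t2_separation
  -- bumps
  have hz : ∀ i : Fin (k + 1), ∃ z : C^∞⟮𝓡∂ (1 + 1), M; 𝓘(ℝ, ℝ), ℝ⟯,
      (∀ x, x ∉ U (p i) → z x = 0) ∧ {x | z x = 1} ∈ 𝓝 (p i) := by
    intro i
    obtain ⟨z, hz0, hz1, -⟩ := exists_contMDiffMap_zero_one_nhds_of_isClosed (𝓡∂ (1 + 1))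
      (s := (U (p i))ᶜ) (t := {p i}) (hU1 (p i)).2.isClosed_compl isClosed_singleton (by
        rw [Set.disjoint_singleton_right]
        exact fun h => h (hU1 (p i)).1)
    refine ⟨z, fun x hx => ?_, ?_⟩
    · exact hz0.self_of_nhdsSet x hx
    · rw [nhdsSet_singleton] at hz1
      exact hz1
  choose z hz0 hz1 using hz
  set W : Fin (k + 1) → Set M := fun i => {x | z i x = 1} with hW
  have hWm : ∀ i, MeasurableSet (W i) := fun i =>
    (isClosed_eq (z i).contMDiff.continuous continuous_const).measurableSet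
  have hWU : ∀ i, W i ⊆ U (p i) := by
    intro i x hx
    by_contra hxU
    have h1 : z i x = 1 := hx
    rw [hz0 i x hxU] at h1
    exact zero_ne_one h1
  have hdis : ∀ i j, i ≠ j → ∀ x ∈ W i, z j x = 0 := by
    intro i j hij x hx
    apply hz0
    intro hxj
    have hd := hU2 (mem_range_self i) (mem_range_self j) (fun h => hij (hpi h))
    exact Set.disjoint_left.1 hd (hWU i hx) hxj
  have hWp : ∀ i, p i ∈ W i := fun i => mem_of_mem_nhds (hz1 i)
  have hWν : ∀ i, ν (W i) ≠ 0 := fun i => len_pos g hbd hF hreg hμ hν (hpF i) (hz1 i)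
  obtain ⟨i0, -, hi0⟩ := Finset.exists_min_image (Finset.univ : Finset (Fin (k + 1)))
    (fun i => ν (W i)) ⟨0, Finset.mem_univ _⟩
  set m : ℝ≥0∞ := ν (W i0) with hm
  have hm0 : m ≠ 0 := hWν i0
  have hmt : m ≠ ⊤ := measure_ne_top _ _
  set T : ℝ≥0∞ := ∑ i, energy g μ (z i) with hT
  have hTt : T ≠ ⊤ := ENNReal.sum_ne_top.2 fun i _ => energy_ne_top hμ (z i).contMDiff
  -- values of the combinations
  have hval : ∀ (a : Fin (k + 1) → ℝ) (i : Fin (k + 1)), ∀ x ∈ W i,
      (∑ i, a i • z i : C^∞⟮𝓡∂ (1 + 1), M; 𝓘(ℝ, ℝ), ℝ⟯) x = a i := by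
    intro a i x hx
    rw [comb_val, Finset.sum_eq_single i]
    · rw [show z i x = 1 from hx, mul_one]
    · intro j _ hji
      rw [hdis i j (Ne.symm hji) x hx, mul_zero]
    · intro h; exact absurd (Finset.mem_univ _) h
  have hbsq : ∀ a : Fin (k + 1) → ℝ, m * ENNReal.ofReal (∑ i, a i ^ 2) ≤
      bsq ν (∑ i, a i • z i : C^∞⟮𝓡∂ (1 + 1), M; 𝓘(ℝ, ℝ), ℝ⟯) := by
    intro a
    set u := (∑ i, a i • z i : C^∞⟮𝓡∂ (1 + 1), M; 𝓘(ℝ, ℝ), ℝ⟯) with hu
    have hpt : ∀ x, ∑ i, (W i).indicator (fun _ => ENNReal.ofReal (a i ^ 2)) x ≤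
        ENNReal.ofReal (u x ^ 2) := by
      intro x
      by_cases hx : ∃ i, x ∈ W i
      · obtain ⟨i, hi⟩ := hx
        rw [Finset.sum_eq_single i]
        · rw [indicator_of_mem hi, hval a i x hi]
        · intro j _ hji
          apply indicator_of_notMem
          intro hxj
          have h1 := hdis i j (Ne.symm hji) x hi
          have h2 : z j x = 1 := hxj
          rw [h1] at h2
          exact zero_ne_one h2
        · intro h; exact absurd (Finset.mem_univ _) h
      · push Not at hx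
        rw [Finset.sum_eq_zero]
        · exact zero_le
        · intro i _
          exact indicator_of_notMem (hx i) _
    calc m * ENNReal.ofReal (∑ i, a i ^ 2)
        = ∑ i, ENNReal.ofReal (a i ^ 2) * m := by
          rw [ENNReal.ofReal_sum_of_nonneg fun i _ => sq_nonneg _, mul_comm, Finset.sum_mul]
      _ ≤ ∑ i, ENNReal.ofReal (a i ^ 2) * ν (W i) := by
          gcongr with i
          exact hi0 i (Finset.mem_univ _)
      _ = ∑ i, ∫⁻ x, (W i).indicator (fun _ => ENNReal.ofReal (a i ^ 2)) x ∂ν := by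
          apply Finset.sum_congr rfl
          intro i _
          rw [lintegral_indicator (hWm i), setLIntegral_const]
      _ = ∫⁻ x, ∑ i, (W i).indicator (fun _ => ENNReal.ofReal (a i ^ 2)) x ∂ν := by
          rw [lintegral_finsetSum]
          intro i _
          exact measurable_const.indicator (hWm i)
      _ ≤ bsq ν u := lintegral_mono hpt
  have henergy : ∀ a : Fin (k + 1) → ℝ,
      energy g μ (∑ i, a i • z i : C^∞⟮𝓡∂ (1 + 1), M; 𝓘(ℝ, ℝ), ℝ⟯) ≤
        ENNReal.ofReal (∑ i, a i ^ 2) * T := by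
    intro a
    calc energy g μ (∑ i, a i • z i : C^∞⟮𝓡∂ (1 + 1), M; 𝓘(ℝ, ℝ), ℝ⟯)
        ≤ ∫⁻ x, ENNReal.ofReal (∑ i, a i ^ 2) * ∑ i, gradSq g (z i) x ∂μ :=
          lintegral_mono fun x => gradSq_comb g a z x
      _ = ENNReal.ofReal (∑ i, a i ^ 2) * T := by
          rw [lintegral_const_mul' _ _ ENNReal.ofReal_ne_top, lintegral_finsetSum]
          · rfl
          · intro i _
            exact gradSq_meas g (z i).contMDiff
  -- linear independence
  have hli : LinearIndependent ℝ z := by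
    rw [Fintype.linearIndependent_iff]
    intro a ha i
    have := hval a i (p i) (hWp i)
    rw [ha] at this
    exact this.symm
  set V := Submodule.span ℝ (range z) with hV
  have hfr : Module.finrank ℝ V = k + 1 := by
    rw [hV, finrank_span_eq_card hli, Fintype.card_fin]
  have hmem : ∀ u ∈ V, ∃ a : Fin (k + 1) → ℝ, u = ∑ i, a i • z i := by
    intro u hu
    obtain ⟨a, ha⟩ := (Submodule.mem_span_range_iff_exists_fun ℝ).1 hu
    exact ⟨a, ha.symm⟩
  have hS : ∀ (a : Fin (k + 1) → ℝ),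
      (∑ i, a i • z i : C^∞⟮𝓡∂ (1 + 1), M; 𝓘(ℝ, ℝ), ℝ⟯) ≠ 0 → 0 < ∑ i, a i ^ 2 := by
    intro a ha
    by_contra hcon
    apply ha
    have h0 : ∑ i, a i ^ 2 = 0 :=
      le_antisymm (not_lt.1 hcon) (Finset.sum_nonneg fun i _ => sq_nonneg _)
    rw [Finset.sum_eq_zero_iff_of_nonneg fun i _ => sq_nonneg _] at h0
    apply Finset.sum_eq_zero
    intro i hi
    rw [pow_eq_zero_iff two_ne_zero |>.1 (h0 i hi), zero_smul]
  have hbound : sigma k g μ ν ≤ T / m := by
    unfold sigma
    refine iInf_le_of_le V (iInf_le_of_le hfr (iInf_le_of_le ?_ ?_))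
    · intro u hu hu0
      obtain ⟨a, rfl⟩ := hmem u hu
      have h1 := hS a hu0
      have h2 := hbsq a
      intro h3
      rw [h3] at h2
      have h4 := nonpos_iff_eq_zero.1 h2
      rw [mul_eq_zero, ENNReal.ofReal_eq_zero] at h4
      rcases h4 with h4 | h4
      · exact hm0 h4
      · linarith
    · refine iSup_le fun u => iSup_le fun hu => iSup_le fun hu0 => ?_
      obtain ⟨a, rfl⟩ := hmem u hu
      apply ENNReal.div_le_of_le_mul
      calc energy g μ (∑ i, a i • z i : C^∞⟮𝓡∂ (1 + 1), M; 𝓘(ℝ, ℝ), ℝ⟯)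
          ≤ ENNReal.ofReal (∑ i, a i ^ 2) * T := henergy a
        _ = T / m * (m * ENNReal.ofReal (∑ i, a i ^ 2)) := by
            rw [← mul_assoc, ENNReal.div_mul_cancel hm0 hmt, mul_comm]
        _ ≤ _ := by
            gcongr
            exact hbsq a
  exact (hbound.trans_lt (ENNReal.div_lt_top hTt hm0)).ne

end Pool.Agent.W45.CS
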