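import Mathlib
import Pool.Agent.W545.Man.SigmaOne
set_option autoImplicit false
open Set Filter Topology MeasureTheory Metric
open scoped ENNReal Manifold ContDiff

/-! An interior Poincaré inequality on connected open subsets of a manifold. -/

namespace Pool.Agent.W45.CS
open Pool.Agent.W545 Pool.Agent.W545.Man

variable {d : ℕ} {Ω : Type*} [TopologicalSpace Ω] [ChartedSpace (EuclideanHalfSpace (d + 1)) Ω]
  [IsManifold (𝓡∂ (d + 1)) ∞ Ω] [MeasurableSpace Ω] [BorelSpace Ω] [T2Space Ω]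

/-- the Poincaré inequality holds on `A` -/
def Good (g : RMetric d Ω) (μ : Measure Ω) (A : Set Ω) : Prop :=
  ∃ C : ℝ≥0∞, C ≠ ⊤ ∧ ∀ u : Ω → ℝ, ContMDiff (𝓡∂ (d + 1)) 𝓘(ℝ, ℝ) ∞ u → ∃ b : ℝ,
    ∫⁻ x in A, Man.sq (u x - b) ∂μ ≤ C * ∫⁻ x in A, gradSq g u x ∂μ

/-- half balls in charts are good -/
theorem good_local {g : RMetric d Ω} {μ : Measure Ω} (hμ : IsVolume g μ) {c : Ω} {V : Set Ω}
    (hV : V ∈ 𝓝 c) : ∃ A : Set Ω, IsCompact A ∧ A ⊆ V ∧ A ∈ 𝓝 c ∧ Good g μ A := by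
  obtain ⟨R, hR, hKt, hKV⟩ := chart_nhds (d := d) hV
  have hnhds := UK_nhds (d := d) c hR
  have hK0 := halfK_vol_pos (ph_coord_nonneg (d := d) c c) hR
  have hKc := halfK_compact (ph d c c) R
  have hrange : range (𝓡∂ (d + 1)) = {y : EE d | 0 ≤ y 0} :=
    range_modelWithCornersEuclideanHalfSpace (d + 1)
  set y0 := ph d c c with hy0
  set K : Set (EE d) := closedBall y0 R ∩ {y : EE d | 0 ≤ y 0} with hKdef
  have hKconv : Convex ℝ K := (convex_closedBall _ _).inter (EuclideanHalfSpace.convex (n := d + 1))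
  have hKr : K ⊆ range (𝓡∂ (d + 1)) := by rw [hrange]; exact inter_subset_right
  refine ⟨UK d c K, UK_compact hKt hKc, hKV, hnhds, ?_⟩
  obtain ⟨a1, b1, ha1, hb1, h1⟩ := vol_bounds g c hKt hKc
  obtain ⟨a, ha, h3⟩ := energy_lower g c hKt hKc
  have hvt : volume K ≠ ⊤ := hKc.measure_lt_top.ne
  set A : ℝ≥0∞ := ENNReal.ofReal ((2 * R) ^ 2) *
    (ENNReal.ofReal (2 ^ Module.finrank ℝ (EE d)) * volume K) with hAdef
  have hAt : A ≠ ⊤ := ENNReal.mul_ne_top ENNReal.ofReal_ne_top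
    (ENNReal.mul_ne_top ENNReal.ofReal_ne_top hvt)
  refine ⟨ENNReal.ofReal b1 * (A / volume K) * (ENNReal.ofReal a)⁻¹, ?_, ?_⟩
  · apply ENNReal.mul_ne_top
    · exact ENNReal.mul_ne_top ENNReal.ofReal_ne_top (ENNReal.div_ne_top hAt hK0)
    · rw [Ne, ENNReal.inv_eq_top, ENNReal.ofReal_eq_zero, not_le]
      exact ha
  intro u hu
  have hL := (Dloc_cont hu c).mono hKt
  have hw : ∀ y ∈ K, HasFDerivWithinAt (loc d c u) (Dloc d c u y) K y := fun y hy =>
    (Dloc_has hu (hKt hy)).mono hKr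
  have hA : ∫⁻ x in K, ∫⁻ z in K, Man.sq (loc d c u x - loc d c u z) ≤
      A * ∫⁻ y in K, Man.sq ‖Dloc d c u y‖ := by
    have := bulk volume hKconv Subset.rfl hL hw (sq_meas_ind hKc hL) hKc.measurableSet
      hKc.measurableSet (ρ := 2 * R) (by
        intro x hx z hz
        have h1 := hx.1; have h2 := hz.1
        rw [mem_closedBall, dist_eq_norm] at h1 h2
        calc ‖z - x‖ = ‖(z - y0) - (x - y0)‖ := by congr 1; abel
          _ ≤ ‖z - y0‖ + ‖x - y0‖ := norm_sub_le _ _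
          _ ≤ 2 * R := by linarith)
    rw [hAdef, mul_assoc]
    exact this
  have hwc : ContinuousOn (loc d c u) K := (loc_contDiff hu c).continuousOn.mono hKt
  -- choice of the constant
  obtain ⟨b, hb⟩ : ∃ b : ℝ, ∫⁻ x in K, Man.sq (loc d c u x - b) ≤
      A / volume K * ∫⁻ y in K, Man.sq ‖Dloc d c u y‖ := by
    have hcontA : ContinuousOn (fun p : EE d × EE d => Man.sq (loc d c u p.1 - loc d c u p.2))
        (K ×ˢ K) := by
      unfold Man.sq
      apply ENNReal.continuous_ofReal.comp_continuousOn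
      apply ContinuousOn.pow
      exact (hwc.comp continuous_fst.continuousOn (fun p hp => hp.1)).sub
        (hwc.comp continuous_snd.continuousOn (fun p hp => hp.2))
    have haA : AEMeasurable (fun p : EE d × EE d => Man.sq (loc d c u p.1 - loc d c u p.2))
        ((volume.restrict K).prod (volume.restrict K)) := by
      rw [Measure.prod_restrict]
      exact hcontA.aemeasurable (hKc.measurableSet.prod hKc.measurableSet)
    rw [lintegral_lintegral_swap haA] at hA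
    have hmA : AEMeasurable (fun z => ∫⁻ x in K, Man.sq (loc d c u x - loc d c u z))
        (volume.restrict K) := haA.prod_swap.lintegral_prod_right'
    obtain ⟨z, hz, hle⟩ := exists_le_setLAverage
      (f := fun z => ∫⁻ x in K, Man.sq (loc d c u x - loc d c u z)) hK0 hvt hmA
    refine ⟨loc d c u z, hle.trans ?_⟩
    rw [setLAverage_eq]
    calc (∫⁻ z in K, ∫⁻ x in K, Man.sq (loc d c u x - loc d c u z)) / volume K
        ≤ (A * ∫⁻ y in K, Man.sq ‖Dloc d c u y‖) / volume K := by gcongr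
      _ = _ := by rw [ENNReal.div_eq_inv_mul, ENNReal.div_eq_inv_mul]; ring
  refine ⟨b, ?_⟩
  have hcont : ContinuousOn (fun y => Man.sq (loc d c u y - b)) K := by
    unfold Man.sq
    exact ENNReal.continuous_ofReal.comp_continuousOn ((hwc.sub continuousOn_const).pow 2)
  have hval : ∀ x ∈ UK d c K, Man.sq (u x - b) = Man.sq (loc d c u (ph d c x) - b) := by
    intro x hx
    rw [loc_val hx.1]
  have e1 := (h1 μ hμ K Subset.rfl hKc (fun x => Man.sq (u x - b)) _ hcont hval).2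
  have e4 : ∫⁻ y in K, Man.sq ‖Dloc d c u y‖ ≤
      (ENNReal.ofReal a)⁻¹ * ∫⁻ x in UK d c K, gradSq g u x ∂μ :=
    le_inv_mul' (by rw [Ne, ENNReal.ofReal_eq_zero, not_le]; exact ha)
      ENNReal.ofReal_ne_top (h3 μ hμ K Subset.rfl hKc u hu)
  calc ∫⁻ x in UK d c K, Man.sq (u x - b) ∂μ
      ≤ ENNReal.ofReal b1 * ∫⁻ y in K, Man.sq (loc d c u y - b) := e1
    _ ≤ ENNReal.ofReal b1 * (A / volume K *
        ((ENNReal.ofReal a)⁻¹ * ∫⁻ x in UK d c K, gradSq g u x ∂μ)) := by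
        gcongr
        exact hb.trans (by gcongr)
    _ = _ := by ring

omit [IsManifold (𝓡∂ (d + 1)) ∞ Ω] [T2Space Ω] in
/-- the union of two good sets which overlap is good -/
theorem good_union [IsManifold (𝓡∂ (d + 1)) ∞ Ω] {g : RMetric d Ω} {μ : Measure Ω}
    {A B : Set Ω} (hA : Good g μ A)
    (hB' : Good g μ B) (hBt : μ B ≠ ⊤) (hAB : μ (A ∩ B) ≠ 0) : Good g μ (A ∪ B) := by
  obtain ⟨CA, hCA, hA⟩ := hA
  obtain ⟨CB, hCB, hB'⟩ := hB'
  have hABt : μ (A ∩ B) ≠ ⊤ := ((measure_mono inter_subset_right).trans_lt hBt.lt_top).ne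
  refine ⟨CA + (2 * CB + 2 * ((2 * CA + 2 * CB) / μ (A ∩ B) * μ B)), ?_, ?_⟩
  · have : (2 * CA + 2 * CB) / μ (A ∩ B) ≠ ⊤ := by
      apply ENNReal.div_ne_top _ hAB
      finiteness
    finiteness
  intro u hu
  obtain ⟨c, hc0⟩ := hA u hu
  obtain ⟨c', hc0'⟩ := hB' u hu
  set D := ∫⁻ x in A ∪ B, gradSq g u x ∂μ with hD
  have hc : ∫⁻ x in A, Man.sq (u x - c) ∂μ ≤ CA * D := hc0.trans (by
    gcongr; exact lintegral_mono_set subset_union_left)
  have hc' : ∫⁻ x in B, Man.sq (u x - c') ∂μ ≤ CB * D := hc0'.trans (by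
    gcongr; exact lintegral_mono_set subset_union_right)
  have hum : Measurable u := hu.continuous.measurable
  refine ⟨c, ?_⟩
  have h1 : Man.sq (c' - c) * μ (A ∩ B) ≤ (2 * CA + 2 * CB) * D := by
    calc Man.sq (c' - c) * μ (A ∩ B) = ∫⁻ _ in A ∩ B, Man.sq (c' - c) ∂μ := by rw [setLIntegral_const]
      _ ≤ ∫⁻ x in A ∩ B, (2 * Man.sq (u x - c) + 2 * Man.sq (u x - c')) ∂μ := by
          apply lintegral_mono
          intro x
          have := sq_add_le (c' - u x) (u x - c)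
          rw [sub_add_sub_cancel] at this
          refine this.trans ?_
          rw [add_comm]
          have e : Man.sq (c' - u x) = Man.sq (u x - c') := by unfold Man.sq; congr 1; ring
          rw [e]
      _ = 2 * ∫⁻ x in A ∩ B, Man.sq (u x - c) ∂μ + 2 * ∫⁻ x in A ∩ B, Man.sq (u x - c') ∂μ := by
          rw [lintegral_add_left ((sq_meas hum c).const_mul _), lintegral_const_mul _ (sq_meas hum c),
            lintegral_const_mul _ (sq_meas hum c')]
      _ ≤ 2 * (CA * D) + 2 * (CB * D) := by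
          gcongr
          · exact (lintegral_mono_set inter_subset_left).trans hc
          · exact (lintegral_mono_set inter_subset_right).trans hc'
      _ = _ := by ring
  have h2 : Man.sq (c' - c) ≤ (2 * CA + 2 * CB) / μ (A ∩ B) * D := by
    rw [← ENNReal.mul_le_mul_iff_left hAB hABt]
    refine h1.trans_eq ?_
    rw [ENNReal.div_eq_inv_mul]
    calc (2 * CA + 2 * CB) * D = (μ (A ∩ B))⁻¹ * μ (A ∩ B) * ((2 * CA + 2 * CB) * D) := by
          rw [ENNReal.inv_mul_cancel hAB hABt, one_mul]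
      _ = _ := by ring
  calc ∫⁻ x in A ∪ B, Man.sq (u x - c) ∂μ
      ≤ ∫⁻ x in A, Man.sq (u x - c) ∂μ + ∫⁻ x in B, Man.sq (u x - c) ∂μ := lintegral_union_le _ _ _
    _ ≤ CA * D + ∫⁻ x in B, (2 * Man.sq (u x - c') + 2 * Man.sq (c' - c)) ∂μ := by
        gcongr with x
        exact sq_shift _ _ _
    _ = CA * D + (2 * ∫⁻ x in B, Man.sq (u x - c') ∂μ + 2 * Man.sq (c' - c) * μ B) := by
        rw [lintegral_add_right _ measurable_const, lintegral_const_mul _ (sq_meas hum c'),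
          setLIntegral_const]
    _ ≤ CA * D + (2 * (CB * D) + 2 * ((2 * CA + 2 * CB) / μ (A ∩ B) * D) * μ B) := by
        gcongr
    _ = _ := by ring

/-- compact subsets of a connected open set are contained in good compact subsets -/
theorem poincG {g : RMetric d Ω} {μ : Measure Ω} (hμ : IsVolume g μ) {O : Set Ω} (hO : IsOpen O)
    (hc : IsConnected O) {K : Set Ω} (hK : IsCompact K) (hKO : K ⊆ O) :
    ∃ K' : Set Ω, IsCompact K' ∧ K ⊆ K' ∧ K' ⊆ O ∧ Good g μ K' := by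
  have := vol_locFin hμ
  have := vol_openPos hμ
  -- unions of good sets with a common neighbourhood
  have hun : ∀ (A B : Set Ω) (x : Ω), IsCompact A → IsCompact B → Good g μ A → Good g μ B →
      A ∈ 𝓝 x → B ∈ 𝓝 x → Good g μ (A ∪ B) := by
    intro A B x hA hB hgA hgB hxA hxB
    exact good_union hgA hgB hB.measure_lt_top.ne
      (μ.measure_pos_of_mem_nhds (Filter.inter_mem hxA hxB)).ne'
  have hrel : ∀ x y : Ω, x ∈ O → y ∈ O → ∃ A : Set Ω, IsCompact A ∧ A ⊆ O ∧ A ∈ 𝓝 x ∧ A ∈ 𝓝 y ∧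
      Good g μ A := by
    intro x y hx hy
    refine IsPreconnected.induction₂ hc.isPreconnected (fun x y => ∃ A : Set Ω, IsCompact A ∧
      A ⊆ O ∧ A ∈ 𝓝 x ∧ A ∈ 𝓝 y ∧ Good g μ A) ?_ ?_ ?_ hx hy
    · intro x hx
      obtain ⟨A, hA1, hA2, hA3, hA4⟩ := good_local hμ (hO.mem_nhds hx)
      apply mem_nhdsWithin_of_mem_nhds
      filter_upwards [eventually_mem_nhds_iff.2 hA3] with y hy
      exact ⟨A, hA1, hA2, hA3, hy, hA4⟩
    · rintro x y z - - - ⟨A, hA1, hA2, hA3, hA4, hA5⟩ ⟨B, hB1, hB2, hB3, hB4, hB5⟩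
      exact ⟨A ∪ B, hA1.union hB1, union_subset hA2 hB2, mem_of_superset hA3 subset_union_left,
        mem_of_superset hB4 subset_union_right, hun A B y hA1 hB1 hA5 hB5 hA4 hB3⟩
    · rintro x y - - ⟨A, hA1, hA2, hA3, hA4, hA5⟩
      exact ⟨A, hA1, hA2, hA4, hA3, hA5⟩
  obtain ⟨x0, hx0⟩ := hc.nonempty
  obtain ⟨K', h1, h2, h3, h4, h5⟩ : ∃ K' : Set Ω, IsCompact K' ∧ K ⊆ K' ∧ K' ⊆ O ∧ K' ∈ 𝓝 x0 ∧
      Good g μ K' := by
    refine IsCompact.induction_on (p := fun S => ∃ K' : Set Ω, IsCompact K' ∧ S ⊆ K' ∧ K' ⊆ O ∧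
      K' ∈ 𝓝 x0 ∧ Good g μ K') hK ?_ ?_ ?_ ?_
    · obtain ⟨A, hA1, hA2, hA3, hA4⟩ := good_local hμ (hO.mem_nhds hx0)
      exact ⟨A, hA1, empty_subset _, hA2, hA3, hA4⟩
    · rintro s t hst ⟨A, hA1, hA2, hA3, hA4, hA5⟩
      exact ⟨A, hA1, hst.trans hA2, hA3, hA4, hA5⟩
    · rintro s t ⟨A, hA1, hA2, hA3, hA4, hA5⟩ ⟨B, hB1, hB2, hB3, hB4, hB5⟩
      exact ⟨A ∪ B, hA1.union hB1, union_subset_union hA2 hB2, union_subset hA3 hB3,
        mem_of_superset hA4 subset_union_left, hun A B x0 hA1 hB1 hA5 hB5 hA4 hB4⟩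
    · intro x hx
      obtain ⟨A, hA1, hA2, hA3, hA4, hA5⟩ := hrel x x0 (hKO hx) hx0
      exact ⟨A, mem_nhdsWithin_of_mem_nhds hA3, A, hA1, Subset.rfl, hA2, hA4, hA5⟩
  exact ⟨K', h1, h2, h3, h5⟩

/-- the interior Poincaré inequality on connected open subsets of surfaces -/
theorem poinc {M : Type*} [TopologicalSpace M] [ChartedSpace (EuclideanHalfSpace (1 + 1)) M]
    [IsManifold (𝓡∂ (1 + 1)) ∞ M] [MeasurableSpace M] [BorelSpace M] [T2Space M]
    [CompactSpace M] {g : RMetric 1 M} {μ : Measure M} (hμ : IsVolume g μ) {O : Set M}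
    (hO : IsOpen O) (hc : IsConnected O) {K : Set M} (hK : IsCompact K) (hKO : K ⊆ O) :
    ∃ (K' : Set M) (C : ℝ≥0∞), IsCompact K' ∧ K ⊆ K' ∧ K' ⊆ O ∧ C ≠ ⊤ ∧
      ∀ u : M → ℝ, ContMDiff (𝓡∂ (1 + 1)) 𝓘(ℝ, ℝ) ∞ u → ∃ b : ℝ,
        ∫⁻ x in K', Man.sq (u x - b) ∂μ ≤ C * ∫⁻ x in K', gradSq g u x ∂μ := by
  obtain ⟨K', h1, h2, h3, C, hC, h⟩ := poincG hμ hO hc hK hKO
  exact ⟨K', C, h1, h2, h3, hC, h⟩

end Pool.Agent.W45.CS
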